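import Mathlib

/-!
Statements of the auxiliary results for the Steklov analogue of the conjecture of Yau
(`MP_596465_an`), on the closed unit disc with a metric conformal to the flat one.
-/

set_option autoImplicit false

open MeasureTheory Metric Set Filter

namespace Pool.Agent.W795.SK

/-! ### The Riemannian distance and the one-dimensional Hausdorff measure -/

/-- Length of the curve `γ : [0, 1] → ℂ` for the metric `lam ^ 2 * |dz| ^ 2`. -/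
noncomputable def curveLength (lam : ℂ → ℝ) (γ : ℝ → ℂ) : ℝ :=
  ∫ t in (0 : ℝ)..1, lam (γ t) * ‖deriv γ t‖

/-- Riemannian distance of the closed unit disc with the metric `lam ^ 2 * |dz| ^ 2`: infimum of the
lengths of the `C^1` curves from `x` to `y` in the closed disc (it is infinite when there is no such
curve, that is if `x` or `y` is not in the closed disc). -/
noncomputable def gDist (lam : ℂ → ℝ) (x y : ℂ) : ENNReal :=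
  ⨅ (γ : ℝ → ℂ) (_ : ContDiff ℝ 1 γ ∧ (∀ t ∈ Icc (0 : ℝ) 1, γ t ∈ closedBall (0 : ℂ) 1) ∧
    γ 0 = x ∧ γ 1 = y), ENNReal.ofReal (curveLength lam γ)

/-- Diameter of a set for `gDist`. -/
noncomputable def gDiam (lam : ℂ → ℝ) (S : Set ℂ) : ENNReal := ⨆ x ∈ S, ⨆ y ∈ S, gDist lam x y

/-- One-dimensional Hausdorff measure of `S` for the distance `gDist`. -/
noncomputable def gHausdorff (lam : ℂ → ℝ) (S : Set ℂ) : ENNReal :=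
  ⨆ (r : ENNReal) (_ : 0 < r), ⨅ (t : ℕ → Set ℂ) (_ : S ⊆ ⋃ n, t n)
    (_ : ∀ n, gDiam lam (t n) ≤ r), ∑' n, gDiam lam (t n)

/-- SK-HAUS.  The Hausdorff measure of the Riemannian distance is at most a constant times the
Euclidean one on the closed disc. -/
def S_haus : Prop :=
  ∀ lam : ℂ → ℝ, Continuous lam → (∀ z, 0 < lam z) → ∃ C : NNReal, ∀ S : Set ℂ,
    S ⊆ closedBall (0 : ℂ) 1 → gHausdorff lam S ≤ C * μH[1] S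

/-- SK-EXT.  A positive smooth function on the circle extends to a positive smooth function. -/
def S_ext : Prop :=
  ∀ ρ : ℝ → ℝ, ContDiff ℝ ((⊤ : ℕ∞) : WithTop ℕ∞) ρ → Function.Periodic ρ (2 * Real.pi) →
    (∀ x, 0 < ρ x) → ∃ lam : ℂ → ℝ, ContDiff ℝ ((⊤ : ℕ∞) : WithTop ℕ∞) lam ∧ (∀ z, 0 < lam z) ∧
      ∀ x : ℝ, lam (Complex.exp (x * Complex.I)) = ρ x

/-! ### The nodal set -/

/-- The Moebius transformation `(w + ε) / (1 + ε w)`. -/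
noncomputable def mob (ε : ℝ) (w : ℂ) : ℂ := (w + ε) / (1 + ε * w)

/-- Logarithms of the points of `Z` in the closed unit disc. -/
def logSet (Z : Set ℂ) : Set ℂ :=
  {W : ℂ | W.re ≤ 0 ∧ 0 ≤ W.im ∧ W.im ≤ 2 * Real.pi ∧ Complex.exp W ∈ Z}

/-- SK-NODAL. -/
def S_nodal : Prop :=
  ∃ C₀ : ℝ, 0 < C₀ ∧ ∀ ε : ℝ, 0 < ε → ε ≤ 1 / 100 → ∃ η : ℝ, 0 < η ∧
    ∀ V : ℂ → ℝ, (∀ z ∈ closedBall (0 : ℂ) 1, |V z| ≤ η) →
      (∀ z ∈ closedBall (0 : ℂ) 1, ∀ z' ∈ closedBall (0 : ℂ) 1, |V z - V z'| ≤ η * ‖z - z'‖) →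
      (∀ w ∈ closedBall (0 : ℂ) 1, (mob ε w).re + V (mob ε w) = 0 → ε / 2 ≤ ‖w‖) ∧
      μH[1] (logSet {w | (mob ε w).re + V (mob ε w) = 0}) ≤
        ENNReal.ofReal (C₀ * (1 + Real.log (1 / ε)))

/-- SK-PULL. -/
def S_pull : Prop :=
  ∀ G : ℂ → ℂ, AnalyticOnNhd ℂ G (closedBall 0 1) →
    (∀ z ∈ ball (0 : ℂ) 1, ‖G z‖ < 1) → (∀ z ∈ sphere (0 : ℂ) 1, ‖G z‖ = 1) →
    (∀ z ∈ sphere (0 : ℂ) 1, deriv G z ≠ 0) →
    ∃ r : ℝ, 0 < r ∧ r < 1 ∧ ∃ C : NNReal, ∀ N : ℕ, 1 ≤ N → ∀ Z : Set ℂ,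
      (∀ w ∈ Z, r ^ N ≤ ‖w‖) →
      μH[1] {z : ℂ | z ∈ closedBall (0 : ℂ) 1 ∧ (G z) ^ N ∈ Z} ≤ C * μH[1] (logSet Z)

/-! ### Perturbation of the first Steklov eigenfunction of the disc -/

/-- SK-FOUR. -/
def S_four : Prop :=
  ∀ (f : ℝ → ℝ) (δ : ℝ), 0 ≤ δ → ContDiff ℝ 2 f → Function.Periodic f (2 * Real.pi) →
    (∀ x, f (-x) = f x) → (∀ x, |f x| ≤ δ) → (∀ x, |iteratedDeriv 2 f x| ≤ δ) →
    ∃ d : ℤ → ℝ, (∀ m, d (-m) = d m) ∧ Summable (fun m => |d m|) ∧ ∑' m, |d m| ≤ 10 * δ ∧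
      ∀ x : ℝ, HasSum (fun m : ℤ => (d m : ℂ) * Complex.exp (m * x * Complex.I)) (f x : ℂ)

/-- SK-FIX. -/
def S_fix : Prop :=
  ∀ η : ℝ, 0 < η → ∃ δ : ℝ, 0 < δ ∧ ∀ d : ℤ → ℝ, (∀ m, d (-m) = d m) →
    Summable (fun m => |d m|) → ∑' m, |d m| ≤ δ →
    ∃ (s : ℝ) (c : ℤ → ℝ), |s - 1| ≤ η ∧ (∀ m, c (-m) = c m) ∧ c 1 = 1 / 2 ∧
      Summable (fun m : ℤ => (1 + |(m : ℝ)|) * |c m|) ∧
      ∑' m : ℤ, (1 + |(m : ℝ)|) * |c m - (if m = 1 ∨ m = -1 then 1 / 2 else 0)| ≤ η ∧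
      ∀ m : ℤ, |(m : ℝ)| * c m = s * (c m + ∑' k : ℤ, d (m - k) * c k)

/-! ### Growth of the derivatives -/

/-- The logarithm of the Poisson type kernel `(1 - ε ^ 2) / |1 + ε w| ^ 2`. -/
noncomputable def ell (ε : ℝ) (w : ℂ) : ℝ :=
  Real.log ((1 - ε ^ 2) / Complex.normSq (1 + ε * w))

/-- SK-GROW. -/
def S_grow : Prop :=
  ∀ g : ℝ → ℂ, ContDiff ℝ ((⊤ : ℕ∞) : WithTop ℕ∞) g → Function.Periodic g (2 * Real.pi) →
    (∀ x, ‖g x‖ = 1) → ∀ (n : ℕ) (η : ℝ), 0 < η → ∃ N₀ : ℕ, ∀ N : ℕ, N₀ ≤ N → ∀ m ≤ n, ∀ x : ℝ,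
      ‖iteratedFDeriv ℝ m (fun y : ℝ => ell (1 / (N : ℝ) ^ (n + 1)) (g y ^ N)) x‖ ≤ η

end Pool.Agent.W795.SK
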