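import Pool.Agent.W795.SK.Seq

/-!
Assembly of the counterexample.
-/

set_option autoImplicit false

open MeasureTheory Metric Set Filter Topology

namespace Pool.Agent.W795.SK

theorem Gs_one {a : ℕ → ℕ × ℝ} (ha : ∀ i, 1 ≤ (a i).1 ∧ 0 < (a i).2 ∧ (a i).2 < 1) (j : ℕ) :
    Gs a j 1 = 1 := by
  induction j with
  | zero => rfl
  | succ j ih =>
    show mob (a j).2 (Gs a j 1 ^ (a j).1) = 1
    rw [ih, one_pow]
    unfold mob
    have h := one_add_ne (ha j).2.1 (ha j).2.2 (w := 1) (by simp)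
    rw [mul_one] at h ⊢
    exact div_self h

theorem ell_contDiff {g : ℝ → ℂ} (hg : ContDiff ℝ ((⊤ : ℕ∞) : WithTop ℕ∞) g)
    (hg1 : ∀ x, ‖g x‖ = 1) {ε : ℝ} (h0 : 0 < ε) (h1 : ε < 1) (N : ℕ) :
    ContDiff ℝ ((⊤ : ℕ∞) : WithTop ℕ∞) (fun y => ell ε (g y ^ N)) := by
  have hw : ∀ y, ‖g y ^ N‖ ≤ 1 := fun y => by rw [norm_pow, hg1, one_pow]
  have hns : ∀ y, Complex.normSq (1 + ε * g y ^ N) ≠ 0 := fun y =>
    (Complex.normSq_pos.2 (one_add_ne h0 h1 (hw y))).ne'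
  have hf : ContDiff ℝ ((⊤ : ℕ∞) : WithTop ℕ∞) (fun y => (1 + ε * g y ^ N : ℂ)) :=
    contDiff_const.add (contDiff_const.mul (hg.pow N))
  have hre : ContDiff ℝ ((⊤ : ℕ∞) : WithTop ℕ∞) (fun y => (1 + ε * g y ^ N : ℂ).re) :=
    Complex.reCLM.contDiff.comp hf
  have him : ContDiff ℝ ((⊤ : ℕ∞) : WithTop ℕ∞) (fun y => (1 + ε * g y ^ N : ℂ).im) :=
    Complex.imCLM.contDiff.comp hf
  have hn : ContDiff ℝ ((⊤ : ℕ∞) : WithTop ℕ∞) (fun y => Complex.normSq (1 + ε * g y ^ N)) := by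
    simp only [Complex.normSq_apply]
    exact (hre.mul hre).add (him.mul him)
  unfold ell
  refine ContDiff.log (contDiff_const.div hn hns) (fun y => ?_)
  have h2 : 0 < Complex.normSq (1 + ε * g y ^ N) := Complex.normSq_pos.2 (one_add_ne h0 h1 (hw y))
  have h3 : 0 < 1 - ε ^ 2 := by nlinarith
  positivity

theorem sum_half (k : ℕ) : HasSum (fun i : ℕ => (1 / 2 : ℝ) ^ (k + i + 1)) ((1 / 2) ^ k) := by
  have h := (hasSum_geometric_of_lt_one (r := (1 / 2 : ℝ)) (by norm_num) (by norm_num)).mul_left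
    ((1 / 2 : ℝ) ^ (k + 1))
  have h2 : (1 / 2 : ℝ) ^ (k + 1) * (1 - 1 / 2)⁻¹ = (1 / 2) ^ k := by
    rw [pow_succ]
    ring
  rw [h2] at h
  have h3 : (fun i : ℕ => (1 / 2 : ℝ) ^ (k + i + 1)) =
      fun i : ℕ => (1 / 2 : ℝ) ^ (k + 1) * (1 / 2) ^ i := by
    funext i
    rw [← pow_add]
    congr 1
    ring
  rw [h3]
  exact h

/-- the terms of the logarithm of the weight, in the angle variable -/
noncomputable def tm (a : ℕ → ℕ × ℝ) (k i : ℕ) (y : ℝ) : ℝ :=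
  ell (a (k + i)).2 (bv (sh k a) i y ^ (a (k + i)).1)

theorem tm_eq (a : ℕ → ℕ × ℝ) (k i : ℕ) (y : ℝ) :
    tm a k i y = lw (sh k a) i (Complex.exp (y * Complex.I)) := rfl

/-- the logarithm of the weight in the angle variable -/
noncomputable def Hs (a : ℕ → ℕ × ℝ) (k : ℕ) (y : ℝ) : ℝ := ∑' i, tm a k i y

section

variable {ψ : ℝ → ℝ} {C₀ : ℝ} {δf : ℝ → ℝ} {a : ℕ → ℕ × ℝ}

theorem tm_contDiff (hval : ∀ i, 1 ≤ (a i).1 ∧ 0 < (a i).2 ∧ (a i).2 < 1) (k i : ℕ) :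
    ContDiff ℝ ((⊤ : ℕ∞) : WithTop ℕ∞) (tm a k i) := by
  obtain ⟨b1, b2, b3⟩ := bv_props (a := sh k a) (j := i) (fun l _ => hval (k + l))
  exact ell_contDiff b1 b3 (hval (k + i)).2.1 (hval (k + i)).2.2 _

theorem tm_bound (ha : ∀ j, Pj ψ C₀ δf j a (a j)) (k i m : ℕ) (hm : m ≤ k + i + 2) (y : ℝ) :
    ‖iteratedFDeriv ℝ m (tm a k i) y‖ ≤ (1 / 2) ^ (k + i + 1) := by
  have h := (ha (k + i)).der k (by omega) m hm y
  have h2 : k + i - k = i := by omega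
  rw [h2] at h
  exact h

theorem tm_bound' (ha : ∀ j, Pj ψ C₀ δf j a (a j)) (l k i m : ℕ) (hl : l < k + i)
    (hm : m ≤ k + i + 2) (y : ℝ) :
    ‖iteratedFDeriv ℝ m (tm a k i) y‖ ≤ (1 / 2) ^ (k + i + 1) * δf (a l).2 := by
  have h := (ha (k + i)).der' l hl k (by omega) m hm y
  have h2 : k + i - k = i := by omega
  rw [h2] at h
  exact h

theorem tm_summable (ha : ∀ j, Pj ψ C₀ δf j a (a j)) (k : ℕ) (y : ℝ) :
    Summable fun i => tm a k i y := by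
  refine Summable.of_norm_bounded (sum_half k).summable (fun i => ?_)
  have := tm_bound ha k i 0 (by omega) y
  rwa [norm_iteratedFDeriv_zero] at this

theorem Hs_contDiff (hval : ∀ i, 1 ≤ (a i).1 ∧ 0 < (a i).2 ∧ (a i).2 < 1)
    (ha : ∀ j, Pj ψ C₀ δf j a (a j)) (k : ℕ) :
    ContDiff ℝ ((⊤ : ℕ∞) : WithTop ℕ∞) (Hs a k) := by
  unfold Hs
  refine contDiff_tsum_of_eventually (v := fun _ i => (1 / 2 : ℝ) ^ (k + i + 1))
    (fun i => tm_contDiff hval k i) (fun _ _ => (sum_half k).summable) (fun m _ => ?_)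
  rw [Nat.cofinite_eq_atTop]
  filter_upwards [eventually_ge_atTop m] with i hi y
  exact tm_bound ha k i m (by omega) y

theorem Hs_bound (hval : ∀ i, 1 ≤ (a i).1 ∧ 0 < (a i).2 ∧ (a i).2 < 1)
    (ha : ∀ j, Pj ψ C₀ δf j a (a j)) (hδf : ∀ ε, 0 < δf ε) (j : ℕ) :
    ∀ m : ℕ, m ≤ 2 → ∀ x, ‖iteratedFDeriv ℝ m (Hs a (j + 1)) x‖ ≤ δf (a j).2 := by
  intro m hm x
  have hs : HasSum (fun i : ℕ => (1 / 2 : ℝ) ^ (j + 1 + i + 1) * δf (a j).2)
      ((1 / 2) ^ (j + 1) * δf (a j).2) := (sum_half (j + 1)).mul_right _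
  have h1 := iteratedFDeriv_tsum_apply (𝕜 := ℝ) (N := 2) (f := tm a (j + 1))
    (v := fun _ i => (1 / 2 : ℝ) ^ (j + 1 + i + 1) * δf (a j).2)
    (fun i => (tm_contDiff hval (j + 1) i).of_le (by exact_mod_cast le_top))
    (fun _ _ => hs.summable)
    (fun k i y hk => tm_bound' ha j (j + 1) i k (by omega) (by
      have : k ≤ 2 := by exact_mod_cast hk
      omega) y) (k := m) (by exact_mod_cast hm) x
  have h2 : iteratedFDeriv ℝ m (Hs a (j + 1)) x =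
      ∑' i, iteratedFDeriv ℝ m (tm a (j + 1) i) x := h1
  rw [h2]
  have h3 : ‖∑' i, iteratedFDeriv ℝ m (tm a (j + 1) i) x‖ ≤ (1 / 2) ^ (j + 1) * δf (a j).2 :=
    tsum_of_norm_bounded hs (fun i => tm_bound' ha j (j + 1) i m (by omega) (by omega) x)
  refine h3.trans ?_
  have h4 : (1 / 2 : ℝ) ^ (j + 1) ≤ 1 := pow_le_one₀ (by norm_num) (by norm_num)
  nlinarith [hδf (a j).2]

theorem Hs_periodic (k : ℕ) : Function.Periodic (Hs a k) (2 * Real.pi) := by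
  intro y
  unfold Hs
  refine tsum_congr (fun i => ?_)
  rw [tm_eq, tm_eq]
  congr 1
  push_cast
  rw [add_mul, Complex.exp_add, Complex.exp_two_pi_mul_I, mul_one]

theorem Hs_even (hval : ∀ i, 1 ≤ (a i).1 ∧ 0 < (a i).2 ∧ (a i).2 < 1) (k : ℕ) (y : ℝ) :
    Hs a k (-y) = Hs a k y := by
  unfold Hs
  refine tsum_congr (fun i => ?_)
  rw [tm_eq, tm_eq]
  have hB := Bl_Gs (sh k a) i (fun l _ => hval (k + l))
  have h1 : Complex.exp (((-y : ℝ) : ℂ) * Complex.I) =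
      (starRingEnd ℂ) (Complex.exp (y * Complex.I)) := by
    rw [← Complex.exp_conj]
    congr 1
    simp
  unfold lw
  rw [h1, hB.conj, ← map_pow, ell_conj]

end

theorem logSet_mono {Z Z' : Set ℂ} (h : ∀ w ∈ Z, w ∈ Z') : logSet Z ⊆ logSet Z' :=
  fun _ hW => ⟨hW.1, hW.2.1, hW.2.2.1, h _ hW.2.2.2⟩

theorem main (hhaus : S_haus) (hext : S_ext) (hnod : S_nodal) (hpull : S_pull) (hfour : S_four)
    (hfix : S_fix) (hgrow : S_grow) (ψ : ℝ → ℝ) (hψ : Tendsto ψ atTop atTop) :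
    ∃ lam : ℂ → ℝ, ContDiff ℝ ((⊤ : ℕ∞) : WithTop ℕ∞) lam ∧ (∀ z, 0 < lam z) ∧
      ∀ K : ℝ, ∃ σ : ℝ, K < σ ∧ ∃ u : ℂ → ℝ, IsSteklov lam σ u ∧
        gHausdorff lam {z : ℂ | z ∈ closedBall (0 : ℂ) 1 ∧ u z = 0} ≤
          ENNReal.ofReal (ψ σ * Real.log σ) := by
  obtain ⟨C₀, hC₀, δf, hδf, Hkey⟩ := key hfour hfix hnod
  obtain ⟨a, ha⟩ := exists_seq (Pj ψ C₀ δf) (fun j a b x h hP => Pj_congr j a b x h hP)
    (fun j a h => exists_Pj hpull hgrow hψ hC₀ hδf j a h)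
  have hval : ∀ i, 1 ≤ (a i).1 ∧ 0 < (a i).2 ∧ (a i).2 < 1 := by
    intro i
    have := (ha i).e1
    exact ⟨(ha i).N1, (ha i).e0, by linarith⟩
  obtain ⟨lam, hl1, hl2, hl3⟩ := hext (fun x => Real.exp (Hs a 0 x))
    ((Hs_contDiff hval ha 0).exp)
    (fun x => by show Real.exp (Hs a 0 _) = Real.exp (Hs a 0 x); rw [Hs_periodic 0 x])
    (fun x => Real.exp_pos _)
  refine ⟨lam, hl1, hl2, fun K => ?_⟩
  obtain ⟨C, hC⟩ := hhaus lam hl1.continuous hl2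
  -- choice of the stage
  obtain ⟨j, hj1, hj2⟩ : ∃ j : ℕ, (C : ℝ) ≤ j + 1 ∧ K < (j : ℝ) / 2 := by
    obtain ⟨j, hj⟩ := exists_nat_gt (max (C : ℝ) (2 * K))
    refine ⟨j, ?_, ?_⟩
    · have := (le_max_left (C : ℝ) (2 * K)).trans hj.le
      linarith
    · have := (le_max_right (C : ℝ) (2 * K)).trans_lt hj
      linarith
  obtain ⟨s, F, F', hp⟩ := Hkey (a j).2 (ha j).e0 (ha j).e1 (Hs a (j + 1))
    (by exact_mod_cast (contDiff_infty.1 (Hs_contDiff hval ha (j + 1)) 2)) (Hs_periodic _)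
    (Hs_even hval _) (Hs_bound hval ha hδf j)
  have hB := Bl_Gs a (j + 1) (fun i _ => hval i)
  have hs1 : 1 / 2 ≤ s := by
    have := (abs_le.1 hp.hs).1
    linarith
  have hdeg : (a j).1 ≤ deg a (j + 1) := by
    unfold deg
    rw [Finset.prod_range_succ]
    have : 0 < ∏ i ∈ Finset.range j, (a i).1 := Finset.prod_pos (fun i _ => (hval i).1)
    exact Nat.le_mul_of_pos_left _ this
  have hdeg' : ((a j).1 : ℝ) ≤ (deg a (j + 1) : ℝ) := by exact_mod_cast hdeg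
  have hσ : ((a j).1 : ℝ) / 2 ≤ (deg a (j + 1) : ℝ) * s := by
    have h0 : (0 : ℝ) ≤ (deg a (j + 1) : ℝ) := Nat.cast_nonneg _
    nlinarith
  have hNj : (j : ℝ) ≤ (a j).1 := by exact_mod_cast (ha j).Nj
  refine ⟨(deg a (j + 1) : ℝ) * s, by linarith, fun z => (F (Gs a (j + 1) z)).re, ?_, ?_⟩
  · refine eig hB (Gs_one hval _) hp lam (deg a (j + 1)) (fun z _ => hl2 z) ?_
    intro z hz φ hφ
    obtain ⟨x, hx⟩ : ∃ x : ℝ, z = Complex.exp (x * Complex.I) := by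
      refine ⟨Complex.arg z, ?_⟩
      have h1 := Complex.norm_mul_exp_arg_mul_I z
      have h2 : ‖z‖ = 1 := by simpa using hz
      rw [h2] at h1
      simpa using h1.symm
    have h1 : lam z = Real.exp (Hs a 0 x) := by rw [hx]; exact hl3 x
    have h2 : Hs a 0 x = ∑ i ∈ Finset.range (j + 1), lw a i z + Hs a (j + 1) φ := by
      have hsum := tm_summable ha 0 x
      have h3 : Hs a 0 x = ∑ i ∈ Finset.range (j + 1), tm a 0 i x + ∑' i, tm a 0 (i + (j + 1)) x :=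
        (hsum.sum_add_tsum_nat_add (j + 1)).symm
      rw [h3]
      congr 1
      · refine Finset.sum_congr rfl (fun i _ => ?_)
        rw [tm_eq, hx]
        have : sh 0 a = a := by
          funext l
          unfold sh
          rw [zero_add]
        rw [this]
      · unfold Hs
        refine tsum_congr (fun i => ?_)
        rw [tm_eq, tm_eq]
        have h4 : sh 0 a = a := by
          funext l
          unfold sh
          rw [zero_add]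
        rw [h4, ← hφ, ← hx, add_comm i (j + 1), lw_shift]
    rw [h1, h2, Real.exp_add]
    ring
  · set Z : Set ℂ := {w : ℂ | ‖w‖ ≤ 1 ∧ (F (mob (a j).2 w)).re = 0} with hZ
    have hset : {z : ℂ | z ∈ closedBall (0 : ℂ) 1 ∧ (F (Gs a (j + 1) z)).re = 0} ⊆
        {z : ℂ | z ∈ closedBall (0 : ℂ) 1 ∧ (Gs a j z) ^ (a j).1 ∈ Z} := by
      intro z hz
      refine ⟨hz.1, ?_, hz.2⟩
      rw [norm_pow]
      exact pow_le_one₀ (norm_nonneg _) ((Bl_Gs a j (fun i _ => hval i)).le hz.1)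
    have hZ1 : ∀ w ∈ Z, (a j).2 / 2 ≤ ‖w‖ := fun w hw => hp.zero w (by simpa using hw.1) hw.2
    have hZ2 : μH[1] (logSet Z) ≤ ENNReal.ofReal (C₀ * (1 + Real.log (1 / (a j).2))) :=
      (measure_mono (logSet_mono (fun w hw => hw.2))).trans hp.meas
    have h1 := (ha j).geo Z hZ1 hZ2 _ hσ
    have hsub : {z : ℂ | z ∈ closedBall (0 : ℂ) 1 ∧ (F (Gs a (j + 1) z)).re = 0} ⊆
        closedBall (0 : ℂ) 1 := fun z hz => hz.1
    have hCj : (C : ENNReal) ≤ ((j + 1 : ℕ) : ENNReal) := by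
      have h2 : C ≤ ((j + 1 : ℕ) : NNReal) := by
        rw [← NNReal.coe_le_coe]
        push_cast
        exact hj1
      exact_mod_cast h2
    calc gHausdorff lam {z : ℂ | z ∈ closedBall (0 : ℂ) 1 ∧ (F (Gs a (j + 1) z)).re = 0}
        ≤ C * μH[1] {z : ℂ | z ∈ closedBall (0 : ℂ) 1 ∧ (F (Gs a (j + 1) z)).re = 0} :=
          hC _ hsub
      _ ≤ ((j + 1 : ℕ) : ENNReal) *
          μH[1] {z : ℂ | z ∈ closedBall (0 : ℂ) 1 ∧ (Gs a j z) ^ (a j).1 ∈ Z} :=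
          mul_le_mul' hCj (measure_mono hset)
      _ ≤ _ := h1

end Pool.Agent.W795.SK
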