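import Pool.Agent.W795.SK.Stmts

/-!
Compositions of finite Blaschke products.
-/

set_option autoImplicit false

open MeasureTheory Metric Set Filter Topology

namespace Pool.Agent.W795.SK

theorem one_add_ne {ε : ℝ} (h0 : 0 < ε) (h1 : ε < 1) {w : ℂ} (hw : ‖w‖ ≤ 1) :
    (1 + ε * w : ℂ) ≠ 0 := by
  intro h
  have h2 : ‖(ε : ℂ) * w‖ < 1 := by
    rw [norm_mul, Complex.norm_real, Real.norm_eq_abs, abs_of_pos h0]
    calc ε * ‖w‖ ≤ ε * 1 := mul_le_mul_of_nonneg_left hw h0.le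
      _ < 1 := by linarith
  have h3 : (ε : ℂ) * w = -1 := by
    have := eq_neg_of_add_eq_zero_right h
    rw [this]
  rw [h3] at h2
  simp at h2

theorem normSq_sub (ε : ℝ) (w : ℂ) :
    Complex.normSq (1 + ε * w) - Complex.normSq (w + ε) = (1 - ε ^ 2) * (1 - Complex.normSq w) := by
  simp only [Complex.normSq_apply, Complex.add_re, Complex.add_im, Complex.mul_re, Complex.mul_im,
    Complex.ofReal_re, Complex.ofReal_im, Complex.one_re, Complex.one_im]
  ring

theorem mob_norm_lt {ε : ℝ} (h0 : 0 < ε) (h1 : ε < 1) {w : ℂ} (hw : ‖w‖ < 1) :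
    ‖mob ε w‖ < 1 := by
  have hne := one_add_ne h0 h1 hw.le
  have hpos : 0 < ‖(1 + ε * w : ℂ)‖ := norm_pos_iff.2 hne
  unfold mob
  rw [norm_div, div_lt_one hpos]
  have h2 := normSq_sub ε w
  have h3 : 0 < (1 - ε ^ 2) * (1 - Complex.normSq w) := by
    have : Complex.normSq w < 1 := by
      rw [Complex.normSq_eq_norm_sq]
      nlinarith [norm_nonneg w]
    have h4 : 0 < 1 - ε ^ 2 := by nlinarith
    exact mul_pos h4 (by linarith)
  rw [Complex.normSq_eq_norm_sq, Complex.normSq_eq_norm_sq] at h2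
  exact lt_of_pow_lt_pow_left₀ 2 hpos.le (by linarith)

theorem mob_norm_eq {ε : ℝ} (h0 : 0 < ε) (h1 : ε < 1) {w : ℂ} (hw : ‖w‖ = 1) :
    ‖mob ε w‖ = 1 := by
  have hne := one_add_ne h0 h1 hw.le
  have hpos : 0 < ‖(1 + ε * w : ℂ)‖ := norm_pos_iff.2 hne
  unfold mob
  rw [norm_div, div_eq_one_iff_eq hpos.ne']
  have h2 := normSq_sub ε w
  rw [Complex.normSq_eq_norm_sq, Complex.normSq_eq_norm_sq, Complex.normSq_eq_norm_sq, hw] at h2
  have h3 : ‖(w + ε : ℂ)‖ ^ 2 = ‖(1 + ε * w : ℂ)‖ ^ 2 := by linarith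
  exact (sq_eq_sq₀ (norm_nonneg _) (norm_nonneg _)).1 h3

theorem mob_hasDeriv {ε : ℝ} {w : ℂ} (hne : (1 + ε * w : ℂ) ≠ 0) :
    HasDerivAt (mob ε) ((1 - ε ^ 2) / (1 + ε * w) ^ 2) w := by
  have h1 : HasDerivAt (fun w : ℂ => w + (ε : ℂ)) 1 w := (hasDerivAt_id w).add_const _
  have h2 : HasDerivAt (fun w : ℂ => 1 + (ε : ℂ) * w) ε w := by
    simpa using ((hasDerivAt_id w).const_mul (ε : ℂ)).const_add 1
  have h3 := h1.div h2 hne
  refine h3.congr_deriv ?_
  congr 1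
  ring

theorem mob_analyticAt {ε : ℝ} {w : ℂ} (hne : (1 + ε * w : ℂ) ≠ 0) : AnalyticAt ℂ (mob ε) w := by
  unfold mob
  exact (analyticAt_id.add analyticAt_const).div
    (analyticAt_const.add (analyticAt_const.mul analyticAt_id)) hne

theorem mob_conj (ε : ℝ) (w : ℂ) :
    mob ε ((starRingEnd ℂ) w) = (starRingEnd ℂ) (mob ε w) := by
  simp [mob]

/-- on the circle, `w * mob' (w) = P (w) * mob w`, with `P = exp (ell ε w)` -/
theorem mob_circle {ε : ℝ} (h0 : 0 < ε) (h1 : ε < 1) {w : ℂ} (hw : ‖w‖ = 1) :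
    w * ((1 - ε ^ 2) / (1 + ε * w) ^ 2) = (Real.exp (ell ε w) : ℂ) * mob ε w := by
  have hne := one_add_ne h0 h1 hw.le
  have hnsq : 0 < Complex.normSq (1 + ε * w) := Complex.normSq_pos.2 hne
  have hpos : 0 < (1 - ε ^ 2) / Complex.normSq (1 + ε * w) := by
    have : 0 < 1 - ε ^ 2 := by nlinarith
    positivity
  have hww : w * (starRingEnd ℂ) w = 1 := by
    rw [Complex.mul_conj, Complex.normSq_eq_norm_sq, hw]
    norm_num
  unfold ell mob
  rw [Real.exp_log hpos, Complex.ofReal_div, Complex.normSq_eq_conj_mul_self, map_add, map_mul,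
    Complex.conj_ofReal, map_one]
  have hne2 : (1 + (ε : ℂ) * (starRingEnd ℂ) w) ≠ 0 := by
    have := (map_ne_zero (starRingEnd ℂ)).2 hne
    simpa using this
  have h3 : w + ε = w * (1 + (ε : ℂ) * (starRingEnd ℂ) w) := by
    calc w + ε = w + ε * 1 := by ring
      _ = w + ε * (w * (starRingEnd ℂ) w) := by rw [hww]
      _ = _ := by ring
  rw [h3]
  field_simp
  push_cast
  ring

theorem ell_conj (ε : ℝ) (w : ℂ) : ell ε ((starRingEnd ℂ) w) = ell ε w := by
  unfold ell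
  have : (1 + (ε : ℂ) * (starRingEnd ℂ) w) = (starRingEnd ℂ) (1 + ε * w) := by simp
  rw [this, Complex.normSq_conj]

/-- `G` behaves like a finite Blaschke product with real coefficients, with boundary derivative `p`. -/
structure Bl (G : ℂ → ℂ) (p : ℂ → ℝ) : Prop where
  an : AnalyticOnNhd ℂ G (closedBall 0 1)
  inn : ∀ z ∈ ball (0 : ℂ) 1, ‖G z‖ < 1
  bd : ∀ z ∈ sphere (0 : ℂ) 1, ‖G z‖ = 1
  der : ∀ z ∈ sphere (0 : ℂ) 1, z * deriv G z = p z * G z
  pos : ∀ z ∈ sphere (0 : ℂ) 1, 0 < p z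
  conj : ∀ z, G ((starRingEnd ℂ) z) = (starRingEnd ℂ) (G z)

theorem Bl.le {G : ℂ → ℂ} {p : ℂ → ℝ} (h : Bl G p) {z : ℂ} (hz : z ∈ closedBall (0 : ℂ) 1) :
    ‖G z‖ ≤ 1 := by
  have h1 : ‖z‖ ≤ 1 := by simpa using hz
  rcases h1.lt_or_eq with h2 | h2
  · exact (h.inn z (by simpa using h2)).le
  · exact (h.bd z (by simpa using h2)).le

theorem Bl.deriv_ne {G : ℂ → ℂ} {p : ℂ → ℝ} (h : Bl G p) :
    ∀ z ∈ sphere (0 : ℂ) 1, deriv G z ≠ 0 := by
  intro z hz h0
  have h1 := h.der z hz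
  rw [h0, mul_zero] at h1
  have h2 := h.bd z hz
  have h3 := h.pos z hz
  have h4 : G z ≠ 0 := by
    intro h5
    rw [h5] at h2
    simp at h2
  have h5 : (p z : ℂ) ≠ 0 := by exact_mod_cast h3.ne'
  exact mul_ne_zero h5 h4 h1.symm

theorem Bl.id : Bl id (fun _ => 1) where
  an := fun z _ => analyticAt_id
  inn := fun z hz => by simpa using hz
  bd := fun z hz => by simpa using hz
  der := fun z _ => by simp
  pos := fun _ _ => one_pos
  conj := fun z => rfl

theorem Bl.step {G : ℂ → ℂ} {p : ℂ → ℝ} (h : Bl G p) {N : ℕ} (hN : 1 ≤ N) {ε : ℝ} (h0 : 0 < ε)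
    (h1 : ε < 1) :
    Bl (fun z => mob ε (G z ^ N)) (fun z => N * Real.exp (ell ε (G z ^ N)) * p z) where
  an := by
    intro z hz
    have h2 : ‖G z ^ N‖ ≤ 1 := by
      rw [norm_pow]
      exact pow_le_one₀ (norm_nonneg _) (h.le hz)
    have h3 : AnalyticAt ℂ (fun z => G z ^ N) z := (h.an z hz).pow N
    exact AnalyticAt.fun_comp (g := mob ε) (f := fun z => G z ^ N)
      (mob_analyticAt (one_add_ne h0 h1 h2)) h3
  inn := by
    intro z hz
    refine mob_norm_lt h0 h1 ?_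
    rw [norm_pow]
    exact pow_lt_one₀ (norm_nonneg _) (h.inn z hz) (by omega)
  bd := by
    intro z hz
    refine mob_norm_eq h0 h1 ?_
    rw [norm_pow, h.bd z hz, one_pow]
  der := by
    intro z hz
    have hG : ‖G z‖ = 1 := h.bd z hz
    have hw : ‖G z ^ N‖ = 1 := by rw [norm_pow, hG, one_pow]
    have hd : HasDerivAt G (deriv G z) z :=
      (h.an z (sphere_subset_closedBall hz)).differentiableAt.hasDerivAt
    have h2 : HasDerivAt (fun z => mob ε (G z ^ N))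
        (((1 - ε ^ 2) / (1 + ε * G z ^ N) ^ 2) * (N * G z ^ (N - 1) * deriv G z)) z :=
      HasDerivAt.comp (h₂ := mob ε) (h := fun z => G z ^ N) z
        (mob_hasDeriv (one_add_ne h0 h1 hw.le)) (hd.pow N)
    rw [h2.deriv]
    have h3 := mob_circle h0 h1 hw
    have h4 := h.der z hz
    have h5 : G z ^ N = G z ^ (N - 1) * G z := by
      rw [← pow_succ, Nat.sub_add_cancel hN]
    calc z * (((1 - (ε : ℂ) ^ 2) / (1 + ε * G z ^ N) ^ 2) * (N * G z ^ (N - 1) * deriv G z))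
        = ((1 - (ε : ℂ) ^ 2) / (1 + ε * G z ^ N) ^ 2) * N * G z ^ (N - 1) * (z * deriv G z) := by
          ring
      _ = N * p z * (G z ^ N * ((1 - (ε : ℂ) ^ 2) / (1 + ε * G z ^ N) ^ 2)) := by
          rw [h4]
          generalize ((1 - (ε : ℂ) ^ 2) / (1 + ε * G z ^ N) ^ 2) = A
          rw [h5]
          ring
      _ = _ := by
          rw [h3]
          push_cast
          ring
  pos := by
    intro z hz
    have := h.pos z hz
    have h2 : (0 : ℝ) < N := by exact_mod_cast hN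
    positivity
  conj := by
    intro z
    rw [h.conj, ← map_pow, mob_conj]

/-- The compositions of the maps `w ↦ mob ε (w ^ N)`. -/
noncomputable def Gs (a : ℕ → ℕ × ℝ) : ℕ → ℂ → ℂ
  | 0 => id
  | n + 1 => fun z => mob (a n).2 (Gs a n z ^ (a n).1)

/-- Shifted sequences. -/
def sh (j : ℕ) (a : ℕ → ℕ × ℝ) : ℕ → ℕ × ℝ := fun i => a (j + i)

theorem Gs_shift (a : ℕ → ℕ × ℝ) (j k : ℕ) (z : ℂ) : Gs a (j + k) z = Gs (sh j a) k (Gs a j z) := by
  induction k with
  | zero => rfl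
  | succ k ih =>
    show mob (a (j + k)).2 (Gs a (j + k) z ^ (a (j + k)).1) = _
    rw [ih]
    rfl

theorem Gs_congr {a b : ℕ → ℕ × ℝ} {j : ℕ} (h : ∀ i < j, a i = b i) : Gs a j = Gs b j := by
  induction j with
  | zero => rfl
  | succ j ih =>
    funext z
    show mob (a j).2 (Gs a j z ^ (a j).1) = mob (b j).2 (Gs b j z ^ (b j).1)
    rw [ih (fun i hi => h i (by omega)), h j (by omega)]

/-- The product of the degrees. -/
def deg (a : ℕ → ℕ × ℝ) (j : ℕ) : ℕ := ∏ i ∈ Finset.range j, (a i).1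

/-- The logarithm of the normalised boundary derivative. -/
noncomputable def lw (a : ℕ → ℕ × ℝ) (i : ℕ) (z : ℂ) : ℝ := ell (a i).2 (Gs a i z ^ (a i).1)

theorem lw_shift (a : ℕ → ℕ × ℝ) (j i : ℕ) (z : ℂ) : lw a (j + i) z = lw (sh j a) i (Gs a j z) := by
  unfold lw
  rw [Gs_shift]
  rfl

theorem Bl_Gs (a : ℕ → ℕ × ℝ) (j : ℕ) (ha : ∀ i < j, 1 ≤ (a i).1 ∧ 0 < (a i).2 ∧ (a i).2 < 1) :
    Bl (Gs a j) (fun z => deg a j * Real.exp (∑ i ∈ Finset.range j, lw a i z)) := by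
  induction j with
  | zero =>
    have : (fun z : ℂ => ((deg a 0 : ℕ) : ℝ) * Real.exp (∑ i ∈ Finset.range 0, lw a i z)) =
        fun _ => 1 := by
      funext z
      simp [deg]
    rw [this]
    exact Bl.id
  | succ j ih =>
    obtain ⟨h1, h2, h3⟩ := ha j (by omega)
    have h4 := (ih (fun i hi => ha i (by omega))).step h1 h2 h3
    have h5 : (fun z : ℂ => ((deg a (j + 1) : ℕ) : ℝ) *
        Real.exp (∑ i ∈ Finset.range (j + 1), lw a i z)) =
        (fun z => (a j).1 * Real.exp (ell (a j).2 (Gs a j z ^ (a j).1)) *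
          (deg a j * Real.exp (∑ i ∈ Finset.range j, lw a i z))) := by
      funext z
      rw [Finset.sum_range_succ, Real.exp_add]
      unfold deg
      rw [Finset.prod_range_succ]
      push_cast
      unfold lw
      ring
    rw [h5]
    exact h4

end Pool.Agent.W795.SK
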