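import Pool.Agent.W795.SK.Pert

/-!
The perturbed first eigenfunction and its nodal set.
-/

set_option autoImplicit false

open MeasureTheory Metric Set Filter Topology

namespace Pool.Agent.W795.SK

theorem exp_bounds (h : ℝ → ℝ) (hh : ContDiff ℝ 2 h) {δ : ℝ} (hδ : δ ≤ 1)
    (hb : ∀ m : ℕ, m ≤ 2 → ∀ x, ‖iteratedFDeriv ℝ m h x‖ ≤ δ) :
    (∀ x, |Real.exp (h x) - 1| ≤ 10 * δ) ∧
    (∀ x, |iteratedDeriv 2 (fun y => Real.exp (h y) - 1) x| ≤ 10 * δ) := by
  have h0 : ∀ x, |h x| ≤ δ := by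
    intro x
    have := hb 0 (by norm_num) x
    simpa using this
  have hδ0 : 0 ≤ δ := (abs_nonneg _).trans (h0 0)
  have h1 : ∀ x, |deriv h x| ≤ δ := by
    intro x
    have := hb 1 (by norm_num) x
    rw [norm_iteratedFDeriv_eq_norm_iteratedDeriv, iteratedDeriv_one] at this
    simpa using this
  have h2 : ∀ x, |deriv (deriv h) x| ≤ δ := by
    intro x
    have := hb 2 le_rfl x
    rw [norm_iteratedFDeriv_eq_norm_iteratedDeriv, iteratedDeriv_succ, iteratedDeriv_one] at this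
    simpa using this
  have hd1 : Differentiable ℝ h := hh.differentiable (by norm_num)
  have hd2 : Differentiable ℝ (deriv h) := by
    have : ContDiff ℝ 1 (deriv h) := by
      have h3 : ContDiff ℝ (1 + 1) h := by
        refine hh.of_le ?_
        norm_num
      exact ((contDiff_succ_iff_deriv (n := 1) (f := h)).1 h3).2.2
    exact this.differentiable (by norm_num)
  constructor
  · intro x
    have := Real.abs_exp_sub_one_le ((h0 x).trans hδ)
    have := h0 x
    linarith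
  · intro x
    have e1 : deriv (fun y => Real.exp (h y) - 1) = fun y => Real.exp (h y) * deriv h y := by
      funext y
      exact (((hd1 y).hasDerivAt.exp).sub_const 1).deriv
    have e2 : iteratedDeriv 2 (fun y => Real.exp (h y) - 1) x =
        Real.exp (h x) * deriv h x * deriv h x + Real.exp (h x) * deriv (deriv h) x := by
      rw [iteratedDeriv_succ, iteratedDeriv_one, e1]
      exact (((hd1 x).hasDerivAt.exp).mul (hd2 x).hasDerivAt).deriv
    rw [e2]
    have e3 : Real.exp (h x) ≤ 3 := by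
      calc Real.exp (h x) ≤ Real.exp 1 := Real.exp_le_exp.2 (((le_abs_self _).trans (h0 x)).trans hδ)
        _ ≤ 3 := by have := Real.exp_one_lt_d9; linarith
    have e4 : |deriv h x * deriv h x + deriv (deriv h) x| ≤ 2 * δ := by
      calc _ ≤ |deriv h x * deriv h x| + |deriv (deriv h) x| := abs_add_le _ _
        _ ≤ δ * 1 + δ := by
            refine add_le_add ?_ (h2 x)
            rw [abs_mul]
            exact mul_le_mul (h1 x) ((h1 x).trans hδ) (abs_nonneg _) hδ0
        _ = 2 * δ := by ring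
    have e5 : Real.exp (h x) * deriv h x * deriv h x + Real.exp (h x) * deriv (deriv h) x =
        Real.exp (h x) * (deriv h x * deriv h x + deriv (deriv h) x) := by ring
    rw [e5, abs_mul, abs_of_pos (Real.exp_pos _)]
    calc _ ≤ 3 * (2 * δ) := mul_le_mul e3 e4 (abs_nonneg _) (by norm_num)
      _ ≤ 10 * δ := by linarith

/-- The data of the perturbed eigenfunction. -/
structure PertData (C₀ ε : ℝ) (h : ℝ → ℝ) (s : ℝ) (F F' : ℂ → ℂ) : Prop where
  hs : |s - 1| ≤ 1 / 2
  cont : ContinuousOn F' (closedBall 0 1)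
  deriv : ∀ z ∈ ball (0 : ℂ) 1, HasDerivAt F (F' z) z
  derivWithin : ∀ z ∈ closedBall (0 : ℂ) 1, HasDerivWithinAt F (F' z) (closedBall 0 1) z
  one : (F 1).re ≠ 0
  zero : ∀ w ∈ closedBall (0 : ℂ) 1, (F (mob ε w)).re = 0 → ε / 2 ≤ ‖w‖
  meas : μH[1] (logSet {w | (F (mob ε w)).re = 0}) ≤ ENNReal.ofReal (C₀ * (1 + Real.log (1 / ε)))
  bd : ∀ x : ℝ, (Complex.exp (x * Complex.I) * F' (Complex.exp (x * Complex.I))).re =
          s * (Real.exp (h x) * (F (Complex.exp (x * Complex.I))).re)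

theorem key (hfour : S_four) (hfix : S_fix) (hnod : S_nodal) :
    ∃ C₀ : ℝ, 0 < C₀ ∧ ∃ δf : ℝ → ℝ, (∀ ε, 0 < δf ε) ∧ ∀ ε : ℝ, 0 < ε → ε ≤ 1 / 100 →
      ∀ h : ℝ → ℝ, ContDiff ℝ 2 h → Function.Periodic h (2 * Real.pi) → (∀ x, h (-x) = h x) →
      (∀ m : ℕ, m ≤ 2 → ∀ x, ‖iteratedFDeriv ℝ m h x‖ ≤ δf ε) →
      ∃ (s : ℝ) (F F' : ℂ → ℂ), PertData C₀ ε h s F F' := by
  obtain ⟨C₀, hC₀, H⟩ := hnod
  refine ⟨C₀, hC₀, ?_⟩
  have main : ∀ ε : ℝ, ∃ δ : ℝ, 0 < δ ∧ (0 < ε → ε ≤ 1 / 100 →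
      ∀ h : ℝ → ℝ, ContDiff ℝ 2 h → Function.Periodic h (2 * Real.pi) → (∀ x, h (-x) = h x) →
      (∀ m : ℕ, m ≤ 2 → ∀ x, ‖iteratedFDeriv ℝ m h x‖ ≤ δ) →
      ∃ (s : ℝ) (F F' : ℂ → ℂ), PertData C₀ ε h s F F') := by
    intro ε
    by_cases hε : 0 < ε ∧ ε ≤ 1 / 100
    · obtain ⟨η, hη, Hη⟩ := H ε hε.1 hε.2
      obtain ⟨δ, hδ, Hδ⟩ := pert hfour hfix (min η (1 / 2)) (by positivity)
      refine ⟨min 1 (δ / 10), by positivity, fun _ _ h hh hper heven hb => ?_⟩
      obtain ⟨b1, b2⟩ := exp_bounds h hh (min_le_left _ _) hb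
      have hle : 10 * min 1 (δ / 10) ≤ δ := by
        have := min_le_right (1 : ℝ) (δ / 10)
        linarith
      obtain ⟨s, F, F', a1, a2, a3, a4, a5, a6⟩ := Hδ (fun x => Real.exp (h x) - 1)
        ((Real.contDiff_exp.comp hh).sub contDiff_const)
        (fun x => by show Real.exp (h _) - 1 = Real.exp (h x) - 1; rw [hper x])
        (fun x => by rw [heven x])
        (fun x => (b1 x).trans hle) (fun x => (b2 x).trans hle)
      have hcl : ∀ z ∈ closedBall (0 : ℂ) 1, ‖F z - z‖ ≤ η ∧ ‖F' z - 1‖ ≤ η := fun z hz =>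
        ⟨(a5 z hz).1.trans (min_le_left _ _), (a5 z hz).2.trans (min_le_left _ _)⟩
      set V : ℂ → ℝ := fun z => (F z - z).re with hV
      have hV1 : ∀ z ∈ closedBall (0 : ℂ) 1, |V z| ≤ η := fun z hz =>
        (Complex.abs_re_le_norm _).trans (hcl z hz).1
      have hV2 : ∀ z ∈ closedBall (0 : ℂ) 1, ∀ z' ∈ closedBall (0 : ℂ) 1,
          |V z - V z'| ≤ η * ‖z - z'‖ := by
        intro z hz z' hz'
        have := Convex.norm_image_sub_le_of_norm_hasDerivWithin_le
          (f := fun z => F z - z) (f' := fun z => F' z - 1) (s := closedBall (0 : ℂ) 1) (C := η)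
          (fun w hw => (a4 w hw).sub (hasDerivWithinAt_id w _)) (fun w hw => (hcl w hw).2)
          (convex_closedBall _ _) hz' hz
        refine le_trans ?_ this
        rw [hV]
        simp only
        rw [← Complex.sub_re]
        exact Complex.abs_re_le_norm _
      obtain ⟨n1, n2⟩ := Hη V hV1 hV2
      have hre : ∀ w : ℂ, (mob ε w).re + V (mob ε w) = (F (mob ε w)).re := by
        intro w
        simp [hV]
      refine ⟨s, F, F', ⟨a1.trans (min_le_right _ _), a2, a3, a4, ?_, ?_, ?_, ?_⟩⟩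
      · have h1 : ‖F 1 - 1‖ ≤ 1 / 2 := (a5 1 (by simp)).1.trans (min_le_right _ _)
        have h2 := (Complex.abs_re_le_norm (F 1 - 1)).trans h1
        rw [Complex.sub_re, Complex.one_re] at h2
        intro h3
        rw [h3] at h2
        norm_num at h2
      · intro w hw h0
        exact n1 w hw (by rw [hre]; exact h0)
      · have : {w | (F (mob ε w)).re = 0} = {w | (mob ε w).re + V (mob ε w) = 0} := by
          ext w
          simp only [mem_ofPred_eq, hre]
        rw [this]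
        exact n2
      · intro x
        rw [a6 x]
        congr 2
        ring
    · exact ⟨1, one_pos, fun h1 h2 => absurd ⟨h1, h2⟩ hε⟩
  choose δf h1 h2 using main
  exact ⟨δf, h1, h2⟩

end Pool.Agent.W795.SK
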