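import Pool.Agent.W795.SK.Bl
import Pool.Agent.W795.SK.Key

/-!
Steklov eigenfunctions obtained by composition with a finite Blaschke product.
-/

set_option autoImplicit false

open MeasureTheory Metric Set Filter Topology

namespace Pool.Agent.W795.SK

/-- `u` is a Steklov eigenfunction with eigenvalue `σ` of the closed unit disc with the metric
`lam ^ 2 * |dz| ^ 2`: it is not zero, harmonic in the open disc, of class `C^1` up to the boundary
with derivative `D`, and its derivative in the direction of the outward unit normal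
`(lam z)⁻¹ • z` at the boundary point `z` is `σ * u z`. -/
structure IsSteklov (lam : ℂ → ℝ) (σ : ℝ) (u : ℂ → ℝ) : Prop where
  ne : ∃ z ∈ closedBall (0 : ℂ) 1, u z ≠ 0
  harm : InnerProductSpace.HarmonicOnNhd u (ball (0 : ℂ) 1)
  bd : ∃ D : ℂ → (ℂ →L[ℝ] ℝ), ContinuousOn D (closedBall (0 : ℂ) 1) ∧
    (∀ z ∈ closedBall (0 : ℂ) 1, HasFDerivWithinAt u (D z) (closedBall (0 : ℂ) 1) z) ∧
    ∀ z ∈ sphere (0 : ℂ) 1, D z ((lam z)⁻¹ • z) = σ * u z

theorem eig {G : ℂ → ℂ} {p : ℂ → ℝ} (hG : Bl G p) (hG1 : G 1 = 1) {C₀ ε : ℝ} {h : ℝ → ℝ} {s : ℝ}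
    {F F' : ℂ → ℂ} (hp : PertData C₀ ε h s F F') (lam : ℂ → ℝ) (n : ℝ)
    (hlam : ∀ z ∈ sphere (0 : ℂ) 1, 0 < lam z)
    (hl : ∀ z ∈ sphere (0 : ℂ) 1, ∀ φ : ℝ, G z = Complex.exp (φ * Complex.I) →
      p z * Real.exp (h φ) = n * lam z) :
    IsSteklov lam (n * s) (fun z => (F (G z)).re) where
  ne := ⟨1, by simp, by simp only [hG1]; exact hp.one⟩
  harm := by
    intro z hz
    have h1 : DifferentiableOn ℂ (fun z => F (G z)) (ball (0 : ℂ) 1) := by
      intro w hw
      have h2 : G w ∈ ball (0 : ℂ) 1 := by simpa using hG.inn w hw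
      have h3 := (hp.deriv _ h2).differentiableAt
      have h4 := (hG.an w (ball_subset_closedBall hw)).differentiableAt
      exact (DifferentiableAt.comp w h3 h4).differentiableWithinAt
    have h2 : AnalyticAt ℂ (fun z => F (G z)) z := h1.analyticAt (isOpen_ball.mem_nhds hz)
    exact AnalyticAt.harmonicAt_re h2
  bd := by
    have hmaps : MapsTo G (closedBall (0 : ℂ) 1) (closedBall (0 : ℂ) 1) := by
      intro z hz
      simpa using hG.le hz
    refine ⟨fun z => Complex.reCLM.comp ((ContinuousLinearMap.toSpanSingleton ℂ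
      (F' (G z) * deriv G z) : ℂ →L[ℂ] ℂ).restrictScalars ℝ), ?_, ?_, ?_⟩
    · have h1 : ContinuousOn (fun z => F' (G z) * deriv G z) (closedBall (0 : ℂ) 1) := by
        refine (hp.cont.comp hG.an.continuousOn hmaps).mul ?_
        exact hG.an.deriv.continuousOn
      have h2 : Continuous (fun w : ℂ => Complex.reCLM.comp ((ContinuousLinearMap.toSpanSingleton ℂ
          w : ℂ →L[ℂ] ℂ).restrictScalars ℝ)) := by
        refine Continuous.clm_comp continuous_const ?_
        refine (ContinuousLinearMap.continuous_restrictScalars ℝ).comp ?_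
        exact (ContinuousLinearMap.toSpanSingletonCLE (𝕜 := ℂ) (E := ℂ)).continuous
      exact h2.comp_continuousOn h1
    · intro z hz
      have h1 : HasDerivWithinAt (fun z => F (G z)) (F' (G z) * deriv G z)
          (closedBall (0 : ℂ) 1) z :=
        HasDerivWithinAt.comp (h₂ := F) (h := G) z (hp.derivWithin _ (hmaps hz))
          (hG.an z hz).differentiableAt.hasDerivAt.hasDerivWithinAt hmaps
      exact Complex.reCLM.hasFDerivAt.comp_hasFDerivWithinAt z
        (h1.hasFDerivWithinAt.restrictScalars ℝ)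
    · intro z hz
      have hGz : ‖G z‖ = 1 := hG.bd z hz
      obtain ⟨φ, hφ⟩ : ∃ φ : ℝ, G z = Complex.exp (φ * Complex.I) := by
        refine ⟨Complex.arg (G z), ?_⟩
        have := Complex.norm_mul_exp_arg_mul_I (G z)
        rw [hGz] at this
        simpa using this.symm
      have h1 := hl z hz φ hφ
      have h2 := hp.bd φ
      rw [← hφ] at h2
      have h3 := hG.der z hz
      have hlz := hlam z hz
      have h4 : F' (G z) * deriv G z * ((lam z)⁻¹ • z : ℂ) =
          (((lam z)⁻¹ * p z : ℝ) : ℂ) * (G z * F' (G z)) := by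
        rw [Complex.real_smul]
        push_cast
        calc F' (G z) * deriv G z * ((lam z : ℂ)⁻¹ * z) = (lam z : ℂ)⁻¹ * F' (G z) * (z * deriv G z) := by
              ring
          _ = _ := by rw [h3]; ring
      show (((lam z)⁻¹ • z : ℂ) • (F' (G z) * deriv G z)).re = n * s * (F (G z)).re
      rw [smul_eq_mul, mul_comm, h4, Complex.re_ofReal_mul, h2]
      calc (lam z)⁻¹ * p z * (s * (Real.exp (h φ) * (F (G z)).re))
          = (lam z)⁻¹ * (p z * Real.exp (h φ)) * (s * (F (G z)).re) := by ring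
        _ = (lam z)⁻¹ * (n * lam z) * (s * (F (G z)).re) := by rw [h1]
        _ = n * s * (F (G z)).re := by
            field_simp

end Pool.Agent.W795.SK
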