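import Pool.Agent.W795.SK.Asm
import Pool.Agent.W358.SKHaus
import Pool.Agent.W358.SKExt
import Pool.Agent.W358.SKFour
import Pool.Agent.W358.SKFix
import Pool.Agent.W358.SKPull
import Pool.Agent.W358.SKGrow
import Pool.Agent.W809.SKNodal

set_option autoImplicit false

open MeasureTheory Metric Set Filter Topology

namespace Pool.Agent.W795.SK

theorem final (ψ : ℝ → ℝ) (hψ : Tendsto ψ atTop atTop) :
    ∃ lam : ℂ → ℝ, ContDiff ℝ ((⊤ : ℕ∞) : WithTop ℕ∞) lam ∧ (∀ z, 0 < lam z) ∧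
      ∀ K : ℝ, ∃ σ : ℝ, K < σ ∧ ∃ u : ℂ → ℝ, IsSteklov lam σ u ∧
        gHausdorff lam {z : ℂ | z ∈ closedBall (0 : ℂ) 1 ∧ u z = 0} ≤
          ENNReal.ofReal (ψ σ * Real.log σ) :=
  main W358.SKH.main W358.SKE.main W809.SKNodal.nodal W358.SKP.main W358.SKF.main W358.SKX.main
    W358.SKG.main ψ hψ

end Pool.Agent.W795.SK
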