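import Pool.Agent.W795.SK.Stmts

/-!
Perturbation of the first Steklov eigenfunction of the disc, on the level of functions.
-/

set_option autoImplicit false

open MeasureTheory Metric Set Filter Topology

namespace Pool.Agent.W795.SK

theorem powser (c : ℕ → ℂ) (hs : Summable fun n : ℕ => (1 + (n : ℝ)) * ‖c n‖) :
    ContinuousOn (fun z : ℂ => ∑' n, c n * z ^ n) (closedBall 0 1) ∧
    ContinuousOn (fun z : ℂ => ∑' n, c n * (n * z ^ (n - 1))) (closedBall 0 1) ∧
    (∀ z ∈ ball (0 : ℂ) 1, HasDerivAt (fun z : ℂ => ∑' n, c n * z ^ n)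
      (∑' n, c n * (n * z ^ (n - 1))) z) ∧
    (∀ z ∈ closedBall (0 : ℂ) 1, HasDerivWithinAt (fun z : ℂ => ∑' n, c n * z ^ n)
      (∑' n, c n * (n * z ^ (n - 1))) (closedBall 0 1) z) := by
  have hb1 : ∀ (n : ℕ) (z : ℂ), z ∈ closedBall (0 : ℂ) 1 →
      ‖c n * z ^ n‖ ≤ (1 + (n : ℝ)) * ‖c n‖ := by
    intro n z hz
    have h1 : ‖z‖ ≤ 1 := by simpa using hz
    rw [norm_mul, norm_pow]
    have h2 : ‖z‖ ^ n ≤ 1 := pow_le_one₀ (norm_nonneg _) h1
    have h3 : (0 : ℝ) ≤ n := Nat.cast_nonneg n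
    nlinarith [norm_nonneg (c n)]
  have hb2 : ∀ (n : ℕ) (z : ℂ), z ∈ closedBall (0 : ℂ) 1 →
      ‖c n * (n * z ^ (n - 1))‖ ≤ (1 + (n : ℝ)) * ‖c n‖ := by
    intro n z hz
    have h1 : ‖z‖ ≤ 1 := by simpa using hz
    rw [norm_mul, norm_mul, norm_pow, Complex.norm_natCast]
    have h2 : ‖z‖ ^ (n - 1) ≤ 1 := pow_le_one₀ (norm_nonneg _) h1
    have h3 : (0 : ℝ) ≤ n := Nat.cast_nonneg n
    have h4 : (n : ℝ) * ‖z‖ ^ (n - 1) ≤ 1 + n := by nlinarith
    calc ‖c n‖ * ((n : ℝ) * ‖z‖ ^ (n - 1)) ≤ ‖c n‖ * (1 + n) :=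
          mul_le_mul_of_nonneg_left h4 (norm_nonneg _)
      _ = _ := by ring
  have hc1 : ContinuousOn (fun z : ℂ => ∑' n, c n * z ^ n) (closedBall 0 1) :=
    continuousOn_tsum (fun n => by fun_prop) hs hb1
  have hc2 : ContinuousOn (fun z : ℂ => ∑' n, c n * (n * z ^ (n - 1))) (closedBall 0 1) :=
    continuousOn_tsum (fun n => by fun_prop) hs hb2
  have hd : ∀ z ∈ ball (0 : ℂ) 1, HasDerivAt (fun z : ℂ => ∑' n, c n * z ^ n)
      (∑' n, c n * (n * z ^ (n - 1))) z := by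
    intro z hz
    refine hasDerivAt_tsum_of_isPreconnected (t := ball (0 : ℂ) 1) (y₀ := 0) hs isOpen_ball
      (convex_ball _ _).isPreconnected (fun n y _ => (hasDerivAt_pow n y).const_mul (c n))
      (fun n y hy => hb2 n y (ball_subset_closedBall hy)) (by simp)
      (.of_norm_bounded hs fun n => hb1 n 0 (by simp)) hz
  refine ⟨hc1, hc2, hd, fun z hz => ?_⟩
  have hcl : closure (ball (0 : ℂ) 1) = closedBall 0 1 := closure_ball _ one_ne_zero
  have h1 : HasFDerivWithinAt (fun z : ℂ => ∑' n, c n * z ^ n)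
      ((ContinuousLinearMap.toSpanSingleton ℂ (∑' n, c n * (n * z ^ (n - 1))) : ℂ →L[ℂ] ℂ).restrictScalars ℝ)
      (closure (ball (0 : ℂ) 1)) z := by
    refine hasFDerivWithinAt_closure_of_tendsto_fderiv
      (fun y hy => ((hd y hy).differentiableAt.restrictScalars ℝ).differentiableWithinAt)
      (convex_ball _ _) isOpen_ball
      (fun y hy => (hc1 y (hcl ▸ hy)).mono ball_subset_closedBall) ?_
    have h2 : Tendsto (fun y : ℂ => ∑' n, c n * (n * y ^ (n - 1))) (𝓝[ball (0 : ℂ) 1] z)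
        (𝓝 (∑' n, c n * (n * z ^ (n - 1)))) :=
      (hc2 z hz).mono_left (nhdsWithin_mono _ ball_subset_closedBall)
    have h3 : Tendsto (fun y : ℂ => ((ContinuousLinearMap.toSpanSingleton ℂ
        (∑' n, c n * (n * y ^ (n - 1))) : ℂ →L[ℂ] ℂ).restrictScalars ℝ)) (𝓝[ball (0 : ℂ) 1] z)
        (𝓝 ((ContinuousLinearMap.toSpanSingleton ℂ
          (∑' n, c n * (n * z ^ (n - 1))) : ℂ →L[ℂ] ℂ).restrictScalars ℝ)) := by
      have h4 : Continuous (fun w : ℂ => ((ContinuousLinearMap.toSpanSingleton ℂ w :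
          ℂ →L[ℂ] ℂ).restrictScalars ℝ)) := by
        refine (ContinuousLinearMap.continuous_restrictScalars ℝ).comp ?_
        exact (ContinuousLinearMap.toSpanSingletonCLE (𝕜 := ℂ) (E := ℂ)).continuous
      exact (h4.tendsto _).comp h2
    refine h3.congr' ?_
    filter_upwards [self_mem_nhdsWithin] with y hy
    exact (((hd y hy).hasFDerivAt.restrictScalars ℝ).fderiv).symm
  rw [hcl] at h1
  exact HasFDerivWithinAt.of_restrictScalars (𝕜 := ℝ) h1 rfl

/-- the character `exp (i m x)` -/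
noncomputable def ec (x : ℝ) (m : ℤ) : ℂ := Complex.exp (m * x * Complex.I)

theorem norm_ec (x : ℝ) (m : ℤ) : ‖ec x m‖ = 1 := by
  unfold ec
  have h : ((m : ℂ) * x * Complex.I) = (((m : ℝ) * x : ℝ) : ℂ) * Complex.I := by push_cast; ring
  rw [h, Complex.norm_exp_ofReal_mul_I]

theorem ec_add (x : ℝ) (m k : ℤ) : ec x (m + k) = ec x m * ec x k := by
  unfold ec
  rw [← Complex.exp_add]
  congr 1
  push_cast
  ring

theorem ec_nat (x : ℝ) (n : ℕ) : ec x n = Complex.exp (x * Complex.I) ^ n := by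
  unfold ec
  rw [← Complex.exp_nat_mul]
  congr 1
  push_cast
  ring

theorem ec_neg (x : ℝ) (m : ℤ) : ec x (-m) = (starRingEnd ℂ) (ec x m) := by
  unfold ec
  rw [← Complex.exp_conj]
  congr 1
  simp

theorem summable_ec (x : ℝ) (c : ℤ → ℝ) (hs : Summable fun m => |c m|) :
    Summable fun m : ℤ => (c m : ℂ) * ec x m := by
  refine Summable.of_norm ?_
  simpa [norm_ec] using hs

theorem summable_nat {c : ℤ → ℝ} (hs : Summable fun m => |c m|) :
    Summable fun n : ℕ => ‖((c n : ℝ) : ℂ)‖ := by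
  have := hs.comp_injective (i := fun n : ℕ => (n : ℤ)) Nat.cast_injective
  refine this.congr (fun n => ?_)
  simp

theorem even_sum (x : ℝ) (c : ℤ → ℝ) (hc : ∀ m, c (-m) = c m) (hs : Summable fun m => |c m|) :
    ∑' m : ℤ, (c m : ℂ) * ec x m =
      (((2 * ∑' n : ℕ, (c n : ℂ) * Complex.exp (x * Complex.I) ^ n) - c 0).re : ℂ) := by
  set ζ := Complex.exp (x * Complex.I) with hζ
  have hζ1 : ‖ζ‖ = 1 := Complex.norm_exp_ofReal_mul_I x
  have hsum : Summable fun n : ℕ => (c n : ℂ) * ζ ^ n := by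
    refine Summable.of_norm ?_
    simpa [hζ1] using summable_nat hs
  set P := ∑' n : ℕ, (c n : ℂ) * ζ ^ n with hP
  have h1 : ∑' m : ℤ, (c m : ℂ) * ec x m = ∑' n : ℕ, (c n : ℂ) * ec x n +
      ∑' n : ℕ, (c (-(n + 1)) : ℂ) * ec x (-(n + 1)) := by
    refine tsum_of_nat_of_neg_add_one (f := fun m : ℤ => (c m : ℂ) * ec x m) ?_ ?_
    · exact (summable_ec x c hs).comp_injective Nat.cast_injective
    · refine (summable_ec x c hs).comp_injective (i := fun n : ℕ => -((n : ℤ) + 1)) ?_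
      intro a b hab
      simp only at hab
      omega
  have h2 : ∑' n : ℕ, (c n : ℂ) * ec x n = P := by
    simp only [ec_nat]; rfl
  have h3 : ∑' n : ℕ, (c (-(n + 1)) : ℂ) * ec x (-(n + 1)) = (starRingEnd ℂ) P - c 0 := by
    have h4 : P = c 0 + ∑' n : ℕ, (c ((n : ℤ) + 1) : ℂ) * ζ ^ (n + 1) := by
      rw [hP, hsum.tsum_eq_zero_add]
      simp
    have h5 : (starRingEnd ℂ) P = c 0 + ∑' n : ℕ, (c (-(n + 1)) : ℂ) * ec x (-(n + 1)) := by
      rw [h4, map_add, Complex.conj_tsum]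
      congr 1
      · simp
      · refine tsum_congr (fun n => ?_)
        rw [map_mul, Complex.conj_ofReal, hc, ec_neg]
        congr 2
        have := ec_nat x (n + 1)
        push_cast at this
        rw [this]
    rw [h5]; ring
  rw [h1, h2, h3, Complex.sub_re, Complex.ofReal_sub, Complex.ofReal_re]
  have h6 : P + (starRingEnd ℂ) P = ((2 * P).re : ℂ) := by
    rw [Complex.add_conj]
    simp
  rw [← h6]; ring

theorem prod_sum (x : ℝ) (d c : ℤ → ℝ) (hd : Summable fun m => |d m|)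
    (hc : Summable fun m => |c m|) :
    (Summable fun m : ℤ => |∑' k : ℤ, d (m - k) * c k|) ∧
    (∑' m : ℤ, (d m : ℂ) * ec x m) * (∑' m : ℤ, (c m : ℂ) * ec x m) =
      ∑' m : ℤ, ((∑' k : ℤ, d (m - k) * c k : ℝ) : ℂ) * ec x m := by
  let e : ℤ × ℤ ≃ ℤ × ℤ :=
    { toFun := fun p => (p.1 - p.2, p.2)
      invFun := fun p => (p.1 + p.2, p.2)
      left_inv := fun p => by simp
      right_inv := fun p => by simp }
  have hdc : Summable fun p : ℤ × ℤ => |d p.1| * |c p.2| :=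
    Summable.mul_of_nonneg hd hc (fun _ => abs_nonneg _) (fun _ => abs_nonneg _)
  have hdc' : Summable fun p : ℤ × ℤ => |d (p.1 - p.2)| * |c p.2| :=
    (e.summable_iff (f := fun p : ℤ × ℤ => |d p.1| * |c p.2|)).2 hdc
  have hS : Summable fun p : ℤ × ℤ => (d p.1 : ℂ) * ec x p.1 * ((c p.2 : ℂ) * ec x p.2) := by
    refine Summable.of_norm ?_
    simpa [norm_ec] using hdc
  have hS' : Summable fun p : ℤ × ℤ =>
      (d (p.1 - p.2) : ℂ) * ec x (p.1 - p.2) * ((c p.2 : ℂ) * ec x p.2) :=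
    (e.summable_iff (f := fun p : ℤ × ℤ =>
      (d p.1 : ℂ) * ec x p.1 * ((c p.2 : ℂ) * ec x p.2))).2 hS
  have hin : ∀ m : ℤ, Summable fun k : ℤ => |d (m - k)| * |c k| := fun m => hdc'.prod_factor m
  have hin' : ∀ m : ℤ, Summable fun k : ℤ => d (m - k) * c k := by
    intro m
    refine Summable.of_norm ?_
    simpa [abs_mul] using hin m
  constructor
  · have h1 : Summable fun m : ℤ => ∑' k : ℤ, |d (m - k)| * |c k| := hdc'.prod
    refine Summable.of_nonneg_of_le (fun _ => abs_nonneg _) (fun m => ?_) h1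
    have := norm_tsum_le_tsum_norm (f := fun k : ℤ => d (m - k) * c k)
      (by simpa [abs_mul] using hin m)
    simpa [abs_mul] using this
  · have h1 : (∑' m : ℤ, (d m : ℂ) * ec x m) * (∑' m : ℤ, (c m : ℂ) * ec x m) =
        ∑' p : ℤ × ℤ, (d p.1 : ℂ) * ec x p.1 * ((c p.2 : ℂ) * ec x p.2) :=
      (summable_ec x d hd).tsum_mul_tsum (summable_ec x c hc) hS
    rw [h1, ← e.tsum_eq (fun p : ℤ × ℤ => (d p.1 : ℂ) * ec x p.1 * ((c p.2 : ℂ) * ec x p.2))]
    have h2 := hS'.tsum_prod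
    refine Eq.trans ?_ (h2.trans (tsum_congr fun m => ?_))
    · rfl
    · rw [Complex.ofReal_tsum, ← tsum_mul_right]
      refine tsum_congr fun k => ?_
      have : ec x m = ec x (m - k) * ec x k := by rw [← ec_add]; simp
      rw [this]
      push_cast
      ring

/-- the correction `c - e` of the coefficients -/
noncomputable def ecor (m : ℤ) : ℝ := if m = 1 ∨ m = -1 then 1 / 2 else 0

theorem pert_fun (c : ℤ → ℝ) (hs : Summable fun m : ℤ => (1 + |(m : ℝ)|) * |c m|)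
    {η : ℝ} (hη : ∑' m : ℤ, (1 + |(m : ℝ)|) * |c m - ecor m| ≤ η)
    (P P' : ℂ → ℂ) (hP : P = fun z => ∑' n : ℕ, (c n : ℂ) * z ^ n)
    (hP' : P' = fun z => ∑' n : ℕ, (c n : ℂ) * (n * z ^ (n - 1))) (heven : ∀ m, c (-m) = c m) :
    ∀ z ∈ closedBall (0 : ℂ) 1, ‖(2 * P z - c 0) - z‖ ≤ η ∧ ‖2 * P' z - 1‖ ≤ η := by
  have hse : Summable fun m : ℤ => (1 + |(m : ℝ)|) * |ecor m| := by
    refine summable_of_ne_finset_zero (s := {1, -1}) (fun m hm => ?_)
    have : ecor m = 0 := by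
      unfold ecor
      rw [if_neg]
      simpa using hm
    rw [this]; simp
  have hsd : Summable fun m : ℤ => (1 + |(m : ℝ)|) * |c m - ecor m| := by
    refine Summable.of_nonneg_of_le (fun m => by positivity) (fun m => ?_) (hs.add hse)
    have h1 : |c m - ecor m| ≤ |c m| + |ecor m| := abs_sub _ _
    have h2 : 0 ≤ 1 + |(m : ℝ)| := by positivity
    nlinarith
  -- the sum over the integers as a sum over the naturals
  set g : ℤ → ℝ := fun m => (1 + |(m : ℝ)|) * |c m - ecor m| with hg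
  have hgeven : ∀ m, g (-m) = g m := by
    intro m
    simp only [hg]
    have h1 : ecor (-m) = ecor m := by
      unfold ecor
      by_cases h : m = 1 ∨ m = -1
      · rw [if_pos h, if_pos (by omega)]
      · rw [if_neg h, if_neg (by omega)]
    rw [heven, h1]
    push_cast
    rw [abs_neg]
  have hgn : ∀ m, 0 ≤ g m := fun m => by positivity
  have hN1 : Summable fun n : ℕ => g n := hsd.comp_injective Nat.cast_injective
  have hN2 : Summable fun n : ℕ => g (n + 1) := by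
    have := (summable_nat_add_iff 1).2 hN1
    simpa using this
  have htot : ∑' m : ℤ, g m = g 0 + 2 * ∑' n : ℕ, g (n + 1) := by
    have h1 := tsum_of_nat_of_neg_add_one (f := g) hN1 (by
      refine hN2.congr (fun n => ?_)
      rw [hgeven])
    rw [h1, hN1.tsum_eq_zero_add]
    simp only [hgeven]
    push_cast
    ring
  have htot' : g 0 + 2 * ∑' n : ℕ, g (n + 1) ≤ η := by rw [← htot]; exact hη
  -- summability of the power series
  have hsn : Summable fun n : ℕ => (1 + (n : ℝ)) * ‖(c n : ℂ)‖ := by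
    have := hs.comp_injective (i := fun n : ℕ => (n : ℤ)) Nat.cast_injective
    refine this.congr (fun n => ?_)
    simp
  intro z hz
  have hz1 : ‖z‖ ≤ 1 := by simpa using hz
  have hpow : ∀ n : ℕ, ‖z ^ n‖ ≤ 1 := fun n => by
    rw [norm_pow]; exact pow_le_one₀ (norm_nonneg _) hz1
  have hS1 : Summable fun n : ℕ => (c n : ℂ) * z ^ n := by
    refine Summable.of_norm_bounded hsn (fun n => ?_)
    rw [norm_mul]
    have h3 : (0 : ℝ) ≤ n := Nat.cast_nonneg n
    nlinarith [norm_nonneg (c n : ℂ), hpow n, mul_nonneg h3 (norm_nonneg (c n : ℂ))]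
  have hS2 : Summable fun n : ℕ => (c n : ℂ) * (n * z ^ (n - 1)) := by
    refine Summable.of_norm_bounded hsn (fun n => ?_)
    rw [norm_mul, norm_mul, Complex.norm_natCast]
    have h3 : (0 : ℝ) ≤ n := Nat.cast_nonneg n
    have h4 := hpow (n - 1)
    have h5 : (n : ℝ) * ‖z ^ (n - 1)‖ ≤ 1 + n := by nlinarith
    calc ‖(c n : ℂ)‖ * ((n : ℝ) * ‖z ^ (n - 1)‖) ≤ ‖(c n : ℂ)‖ * (1 + n) :=
          mul_le_mul_of_nonneg_left h5 (norm_nonneg _)
      _ = _ := by ring
  have hSe1 : Summable fun n : ℕ => ((ecor (n : ℤ) : ℝ) : ℂ) * z ^ n := by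
    refine summable_of_ne_finset_zero (s := {1}) (fun m hm => ?_)
    have : ecor (m : ℤ) = 0 := by
      unfold ecor
      rw [if_neg]
      simp at hm
      omega
    rw [this]; simp
  have hSe2 : Summable fun n : ℕ => ((ecor (n : ℤ) : ℝ) : ℂ) * (n * z ^ (n - 1)) := by
    refine summable_of_ne_finset_zero (s := {1}) (fun m hm => ?_)
    have : ecor (m : ℤ) = 0 := by
      unfold ecor
      rw [if_neg]
      simp at hm
      omega
    rw [this]; simp
  have he1 : ∑' n : ℕ, ((ecor (n : ℤ) : ℝ) : ℂ) * z ^ n = z / 2 := by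
    rw [tsum_eq_single 1]
    · simp [ecor]; ring
    · intro m hm
      have : ecor (m : ℤ) = 0 := by
        unfold ecor
        rw [if_neg]
        omega
      rw [this]; simp
  have he2 : ∑' n : ℕ, ((ecor (n : ℤ) : ℝ) : ℂ) * (n * z ^ (n - 1)) = 1 / 2 := by
    rw [tsum_eq_single 1]
    · simp [ecor]
    · intro m hm
      have : ecor (m : ℤ) = 0 := by
        unfold ecor
        rw [if_neg]
        omega
      rw [this]; simp
  have hgl : ∀ n : ℕ, |c (n + 1) - ecor (n + 1)| ≤ g (n + 1) := by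
    intro n
    simp only [hg]
    nlinarith [abs_nonneg (c (n + 1) - ecor (n + 1)), abs_nonneg (((n : ℤ) + 1 : ℤ) : ℝ)]
  have hg0 : |c 0| ≤ g 0 := by
    simp [hg, ecor]
  constructor
  · have h1 : 2 * P z - c 0 - z =
        c 0 + ∑' n : ℕ, 2 * ((((c (n + 1) - ecor (n + 1) : ℝ)) : ℂ) * z ^ (n + 1)) := by
      have h2 : P z - z / 2 = ∑' n : ℕ, ((c n : ℂ) * z ^ n - ((ecor (n : ℤ) : ℝ) : ℂ) * z ^ n) := by
        rw [hS1.tsum_sub hSe1, he1, hP]
      have h3 : Summable fun n : ℕ => ((c n : ℂ) * z ^ n - ((ecor (n : ℤ) : ℝ) : ℂ) * z ^ n) :=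
        hS1.sub hSe1
      rw [h3.tsum_eq_zero_add] at h2
      have h4 : 2 * P z - c 0 - z = 2 * (P z - z / 2) - c 0 := by ring
      rw [h4, h2, tsum_mul_left]
      have h5 : ecor 0 = 0 := by simp [ecor]
      simp only [Nat.cast_zero, h5, Complex.ofReal_zero, sub_zero, pow_zero, mul_one,
        mul_add]
      have h6 : (∑' n : ℕ, ((c ((n + 1 : ℕ) : ℤ) : ℂ) * z ^ (n + 1) -
          ((ecor ((n + 1 : ℕ) : ℤ) : ℝ) : ℂ) * z ^ (n + 1))) =
          ∑' n : ℕ, (((c (n + 1) - ecor (n + 1) : ℝ)) : ℂ) * z ^ (n + 1) := by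
        refine tsum_congr (fun n => ?_)
        push_cast
        ring
      rw [h6]
      ring
    rw [h1]
    have h7 : ‖∑' n : ℕ, 2 * ((((c (n + 1) - ecor (n + 1) : ℝ)) : ℂ) * z ^ (n + 1))‖ ≤
        ∑' n : ℕ, 2 * g (n + 1) := by
      refine tsum_of_norm_bounded (hN2.mul_left 2).hasSum (fun n => ?_)
      rw [norm_mul, norm_mul, Complex.norm_real, Real.norm_eq_abs]
      have h8 := hgl n
      have h9 := hpow (n + 1)
      have h10 : ‖(2 : ℂ)‖ = 2 := by simp
      rw [h10]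
      nlinarith [abs_nonneg (c (n + 1) - ecor (n + 1)), norm_nonneg (z ^ (n + 1))]
    have h8 : ∑' n : ℕ, 2 * g (n + 1) = 2 * ∑' n : ℕ, g (n + 1) := tsum_mul_left
    rw [h8] at h7
    calc _ ≤ ‖(c 0 : ℂ)‖ + _ := norm_add_le _ _
      _ ≤ g 0 + 2 * ∑' n : ℕ, g (n + 1) := by
          refine add_le_add ?_ h7
          rw [Complex.norm_real]
          exact hg0
      _ ≤ η := htot'
  · have h1 : 2 * P' z - 1 =
        ∑' n : ℕ, 2 * ((((c (n + 1) - ecor (n + 1) : ℝ)) : ℂ) * ((n + 1) * z ^ n)) := by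
      have h2 : P' z - 1 / 2 = ∑' n : ℕ, ((c n : ℂ) * (n * z ^ (n - 1)) -
          ((ecor (n : ℤ) : ℝ) : ℂ) * (n * z ^ (n - 1))) := by
        rw [hS2.tsum_sub hSe2, he2, hP']
      have h3 : Summable fun n : ℕ => ((c n : ℂ) * (n * z ^ (n - 1)) -
          ((ecor (n : ℤ) : ℝ) : ℂ) * (n * z ^ (n - 1))) := hS2.sub hSe2
      rw [h3.tsum_eq_zero_add] at h2
      have h4 : 2 * P' z - 1 = 2 * (P' z - 1 / 2) := by ring
      rw [h4, h2, tsum_mul_left]
      congr 1
      simp only [Nat.cast_zero, zero_mul, mul_zero, sub_zero, zero_add]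
      refine tsum_congr (fun n => ?_)
      rw [Nat.add_sub_cancel]
      push_cast
      ring
    rw [h1]
    have h7 : ‖∑' n : ℕ, 2 * ((((c (n + 1) - ecor (n + 1) : ℝ)) : ℂ) * ((n + 1) * z ^ n))‖ ≤
        ∑' n : ℕ, 2 * g (n + 1) := by
      refine tsum_of_norm_bounded (hN2.mul_left 2).hasSum (fun n => ?_)
      rw [norm_mul, norm_mul, norm_mul, Complex.norm_real, Real.norm_eq_abs]
      have h9 := hpow n
      have h10 : ‖(2 : ℂ)‖ = 2 := by simp
      have h11 : ‖((n : ℂ) + 1)‖ = n + 1 := by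
        have : ((n : ℂ) + 1) = ((n + 1 : ℕ) : ℂ) := by push_cast; ring
        rw [this, Complex.norm_natCast]
        push_cast
        ring
      rw [h10, h11]
      have h12 : g (n + 1) = (1 + ((n : ℝ) + 1)) * |c (n + 1) - ecor (n + 1)| := by
        simp only [hg]
        have : |(((n : ℤ) + 1 : ℤ) : ℝ)| = (n : ℝ) + 1 := by
          push_cast
          rw [abs_of_nonneg]
          positivity
        rw [this]
      rw [h12]
      have h13 : ((n : ℝ) + 1) * ‖z ^ n‖ ≤ 1 + ((n : ℝ) + 1) := by nlinarith [norm_nonneg (z ^ n)]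
      nlinarith [abs_nonneg (c (n + 1) - ecor (n + 1)),
        mul_le_mul_of_nonneg_left h13 (abs_nonneg (c (n + 1) - ecor (n + 1)))]
    have h8 : ∑' n : ℕ, 2 * g (n + 1) = 2 * ∑' n : ℕ, g (n + 1) := tsum_mul_left
    rw [h8] at h7
    have := hgn 0
    linarith

theorem pert (hfour : S_four) (hfix : S_fix) (η : ℝ) (hη : 0 < η) : ∃ δ : ℝ, 0 < δ ∧
    ∀ f : ℝ → ℝ, ContDiff ℝ 2 f → Function.Periodic f (2 * Real.pi) → (∀ x, f (-x) = f x) →
      (∀ x, |f x| ≤ δ) → (∀ x, |iteratedDeriv 2 f x| ≤ δ) →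
      ∃ (s : ℝ) (F F' : ℂ → ℂ), |s - 1| ≤ η ∧ ContinuousOn F' (closedBall 0 1) ∧
        (∀ z ∈ ball (0 : ℂ) 1, HasDerivAt F (F' z) z) ∧
        (∀ z ∈ closedBall (0 : ℂ) 1, HasDerivWithinAt F (F' z) (closedBall 0 1) z) ∧
        (∀ z ∈ closedBall (0 : ℂ) 1, ‖F z - z‖ ≤ η ∧ ‖F' z - 1‖ ≤ η) ∧
        ∀ x : ℝ, (Complex.exp (x * Complex.I) * F' (Complex.exp (x * Complex.I))).re =
          s * ((1 + f x) * (F (Complex.exp (x * Complex.I))).re) := by
  obtain ⟨δ, hδ, H⟩ := hfix η hη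
  refine ⟨δ / 10, by positivity, ?_⟩
  intro f hf hper heven hf0 hf2
  obtain ⟨d, hd1, hd2, hd3, hd4⟩ := hfour f (δ / 10) (by positivity) hf hper heven hf0 hf2
  obtain ⟨s, c, hs1, hc1, hc2, hc3, hc4, hc5⟩ := H d hd1 hd2 (by linarith)
  have hcn : Summable fun n : ℕ => (1 + (n : ℝ)) * ‖(c n : ℂ)‖ := by
    have := hc3.comp_injective (i := fun n : ℕ => (n : ℤ)) Nat.cast_injective
    refine this.congr (fun n => ?_)
    simp
  obtain ⟨p1, p2, p3, p4⟩ := powser (fun n : ℕ => (c n : ℂ)) hcn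
  set P : ℂ → ℂ := fun z => ∑' n : ℕ, (c n : ℂ) * z ^ n with hP
  set P' : ℂ → ℂ := fun z => ∑' n : ℕ, (c n : ℂ) * (n * z ^ (n - 1)) with hP'
  refine ⟨s, fun z => 2 * P z - c 0, fun z => 2 * P' z, hs1, ?_, ?_, ?_, ?_, ?_⟩
  · exact continuousOn_const.mul p2
  · intro z hz
    exact ((p3 z hz).const_mul 2).sub_const _
  · intro z hz
    exact ((p4 z hz).const_mul 2).sub_const _
  · exact pert_fun c hc3 hc4 P P' hP hP' hc1
  · intro x
    have hcs : Summable fun m : ℤ => |c m| := by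
      refine Summable.of_nonneg_of_le (fun _ => abs_nonneg _) (fun m => ?_) hc3
      nlinarith [abs_nonneg (c m), abs_nonneg (m : ℝ),
        mul_nonneg (abs_nonneg (m : ℝ)) (abs_nonneg (c m))]
    have hms : Summable fun m : ℤ => |(|(m : ℝ)| * c m)| := by
      refine Summable.of_nonneg_of_le (fun _ => abs_nonneg _) (fun m => ?_) hc3
      rw [abs_mul, abs_abs]
      nlinarith [abs_nonneg (c m), abs_nonneg (m : ℝ),
        mul_nonneg (abs_nonneg (m : ℝ)) (abs_nonneg (c m))]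
    have e1 := even_sum x c hc1 hcs
    have e2 := even_sum x (fun m : ℤ => |(m : ℝ)| * c m) (fun m => by
      simp only [hc1]; push_cast; rw [abs_neg]) hms
    obtain ⟨q1, q2⟩ := prod_sum x d c hd2 hcs
    set ζ := Complex.exp (x * Complex.I) with hζ
    have hζ1 : ‖ζ‖ = 1 := Complex.norm_exp_ofReal_mul_I x
    have hfx : ∑' m : ℤ, (d m : ℂ) * ec x m = (f x : ℂ) := (hd4 x).tsum_eq
    -- the left side
    have e3 : (2 * ∑' n : ℕ, ((|((n : ℤ) : ℝ)| * c n : ℝ) : ℂ) * ζ ^ n) -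
        ((|((0 : ℤ) : ℝ)| * c 0 : ℝ) : ℂ) = ζ * (2 * P' ζ) := by
      have h0 : ((|((0 : ℤ) : ℝ)| * c 0 : ℝ) : ℂ) = 0 := by simp
      rw [h0, sub_zero]
      have h1 : ∑' n : ℕ, ((|((n : ℤ) : ℝ)| * c n : ℝ) : ℂ) * ζ ^ n = ζ * P' ζ := by
        have h2 : ζ * P' ζ = ∑' n : ℕ, ζ * ((c n : ℂ) * (n * ζ ^ (n - 1))) := tsum_mul_left.symm
        rw [h2]
        refine tsum_congr (fun n => ?_)
        rcases n with _ | n
        · simp
        · rw [Nat.add_sub_cancel]
          have : |(((n + 1 : ℕ) : ℤ) : ℝ)| = (n : ℝ) + 1 := by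
            push_cast
            rw [abs_of_nonneg]
            positivity
          rw [this]
          push_cast
          ring
      rw [h1]
      ring
    have e4 : ((ζ * (2 * P' ζ)).re : ℂ) = s * ((1 + f x) * ((2 * P ζ - c 0).re : ℂ)) := by
      rw [← e3, ← e2, ← e1]
      have h1 : ∀ m : ℤ, (((|(m : ℝ)| * c m : ℝ)) : ℂ) * ec x m =
          s * ((c m : ℂ) * ec x m + ((∑' k : ℤ, d (m - k) * c k : ℝ) : ℂ) * ec x m) := by
        intro m
        rw [hc5 m]
        push_cast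
        ring
      have h2 : Summable fun m : ℤ => ((∑' k : ℤ, d (m - k) * c k : ℝ) : ℂ) * ec x m :=
        summable_ec x (fun m => ∑' k : ℤ, d (m - k) * c k) q1
      have h3 : ∑' m : ℤ, (s : ℂ) * ((c m : ℂ) * ec x m +
          ((∑' k : ℤ, d (m - k) * c k : ℝ) : ℂ) * ec x m) =
          s * (∑' m : ℤ, (c m : ℂ) * ec x m +
            ∑' m : ℤ, ((∑' k : ℤ, d (m - k) * c k : ℝ) : ℂ) * ec x m) := by
        rw [tsum_mul_left, (summable_ec x c hcs).tsum_add h2]
      rw [tsum_congr h1, h3, ← q2, hfx]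
      ring
    have e5 := congrArg Complex.re e4
    simp only [Complex.ofReal_re] at e5
    rw [e5]
    rw [show ((s : ℂ) * ((1 + (f x : ℂ)) * (((2 * P ζ - c 0).re : ℝ) : ℂ))) =
      ((s * ((1 + f x) * (2 * P ζ - c 0).re) : ℝ) : ℂ) by push_cast; ring]
    rw [Complex.ofReal_re]

end Pool.Agent.W795.SK
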