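import Pool.Agent.W795.SK.Eig

/-!
Choice of the sequence of degrees.
-/

set_option autoImplicit false

open MeasureTheory Metric Set Filter Topology

namespace Pool.Agent.W795.SK

/-- a recursion principle -/
theorem exists_seq {α : Type*} [Inhabited α] (P : ℕ → (ℕ → α) → α → Prop)
    (hP : ∀ j a b x, (∀ i < j, a i = b i) → P j a x → P j b x)
    (hex : ∀ j a, (∀ i < j, P i a (a i)) → ∃ x, P j a x) :
    ∃ a : ℕ → α, ∀ j, P j a (a j) := by
  classical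
  let step : ℕ → (ℕ → α) → (ℕ → α) := fun j a =>
    Function.update a j (if h : ∃ x, P j a x then h.choose else default)
  let A : ℕ → (ℕ → α) := fun n => Nat.rec (fun _ => default) (fun j a => step j a) n
  have hA : ∀ j, A (j + 1) = step j (A j) := fun j => rfl
  let a : ℕ → α := fun i => A (i + 1) i
  have h1 : ∀ m i, i < m → A m i = a i := by
    intro m
    induction m with
    | zero => intro i hi; omega
    | succ m ih =>
      intro i hi
      rcases Nat.lt_or_ge i m with h | h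
      · rw [hA]
        show Function.update (A m) m _ i = a i
        rw [Function.update_of_ne (by omega)]
        exact ih i h
      · have : i = m := by omega
        subst this
        rfl
  refine ⟨a, fun j => ?_⟩
  induction j using Nat.strong_induction_on with
  | _ j ih =>
    have h2 : ∀ i < j, P i (A j) (A j i) := by
      intro i hi
      rw [h1 j i hi]
      refine hP i a (A j) (a i) (fun k hk => ?_) (ih i hi)
      rw [h1 j k (by omega)]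
    have h3 := hex j (A j) h2
    have h4 : a j = h3.choose := by
      show A (j + 1) j = _
      rw [hA]
      show Function.update (A j) j _ j = _
      rw [Function.update_self, dif_pos h3]
    rw [h4]
    exact hP j (A j) a _ (fun i hi => h1 j i hi) h3.choose_spec

/-- boundary values -/
noncomputable def bv (a : ℕ → ℕ × ℝ) (j : ℕ) (y : ℝ) : ℂ := Gs a j (Complex.exp (y * Complex.I))

/-- the condition on the choice at the stage `j` -/
structure Pj (ψ : ℝ → ℝ) (C₀ : ℝ) (δf : ℝ → ℝ) (j : ℕ) (a : ℕ → ℕ × ℝ) (x : ℕ × ℝ) : Prop where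
  N1 : 1 ≤ x.1
  Nj : j ≤ x.1
  e0 : 0 < x.2
  e1 : x.2 ≤ 1 / 100
  geo : ∀ Z : Set ℂ, (∀ w ∈ Z, x.2 / 2 ≤ ‖w‖) →
    μH[1] (logSet Z) ≤ ENNReal.ofReal (C₀ * (1 + Real.log (1 / x.2))) →
    ∀ σ : ℝ, (x.1 : ℝ) / 2 ≤ σ →
      ((j + 1 : ℕ) : ENNReal) * μH[1] {z : ℂ | z ∈ closedBall (0 : ℂ) 1 ∧ (Gs a j z) ^ x.1 ∈ Z} ≤
        ENNReal.ofReal (ψ σ * Real.log σ)
  der : ∀ k ≤ j, ∀ m ≤ j + 2, ∀ y : ℝ,
    ‖iteratedFDeriv ℝ m (fun y : ℝ => ell x.2 (bv (sh k a) (j - k) y ^ x.1)) y‖ ≤ (1 / 2) ^ (j + 1)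
  der' : ∀ i < j, ∀ k ≤ j, ∀ m ≤ j + 2, ∀ y : ℝ,
    ‖iteratedFDeriv ℝ m (fun y : ℝ => ell x.2 (bv (sh k a) (j - k) y ^ x.1)) y‖ ≤
      (1 / 2) ^ (j + 1) * δf (a i).2

theorem Pj_congr {ψ : ℝ → ℝ} {C₀ : ℝ} {δf : ℝ → ℝ} (j : ℕ) (a b : ℕ → ℕ × ℝ) (x : ℕ × ℝ)
    (h : ∀ i < j, a i = b i) (hP : Pj ψ C₀ δf j a x) : Pj ψ C₀ δf j b x := by
  have h1 : Gs b j = Gs a j := (Gs_congr h).symm
  have h2 : ∀ k ≤ j, bv (sh k b) (j - k) = bv (sh k a) (j - k) := by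
    intro k hk
    funext y
    unfold bv
    have : Gs (sh k b) (j - k) = Gs (sh k a) (j - k) :=
      (Gs_congr (fun i hi => h (k + i) (by omega))).symm
    rw [this]
  refine ⟨hP.N1, hP.Nj, hP.e0, hP.e1, ?_, ?_, ?_⟩
  · rw [h1]
    exact hP.geo
  · intro k hk
    rw [h2 k hk]
    exact hP.der k hk
  · intro i hi k hk
    rw [h2 k hk, ← h i hi]
    exact hP.der' i hi k hk

theorem bv_props {a : ℕ → ℕ × ℝ} {j : ℕ}
    (ha : ∀ i < j, 1 ≤ (a i).1 ∧ 0 < (a i).2 ∧ (a i).2 < 1) :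
    ContDiff ℝ ((⊤ : ℕ∞) : WithTop ℕ∞) (bv a j) ∧ Function.Periodic (bv a j) (2 * Real.pi) ∧
      ∀ y, ‖bv a j y‖ = 1 := by
  have hB := Bl_Gs a j ha
  refine ⟨?_, ?_, ?_⟩
  · rw [contDiff_iff_contDiffAt]
    intro y
    have h1 : Complex.exp (y * Complex.I) ∈ closedBall (0 : ℂ) 1 := by
      rw [mem_closedBall, dist_zero_right, Complex.norm_exp_ofReal_mul_I]
    have h2 : ContDiffAt ℝ ((⊤ : ℕ∞) : WithTop ℕ∞) (Gs a j) (Complex.exp (y * Complex.I)) :=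
      ((hB.an _ h1).contDiffAt).restrict_scalars ℝ
    have h3 : ContDiff ℝ ((⊤ : ℕ∞) : WithTop ℕ∞) (fun y : ℝ => Complex.exp (y * Complex.I)) := by
      refine ContDiff.cexp ?_
      exact Complex.ofRealCLM.contDiff.mul contDiff_const
    exact ContDiffAt.comp y h2 h3.contDiffAt
  · intro y
    unfold bv
    congr 1
    push_cast
    rw [add_mul, Complex.exp_add, Complex.exp_two_pi_mul_I, mul_one]
  · intro y
    refine hB.bd _ ?_
    rw [mem_sphere, dist_zero_right, Complex.norm_exp_ofReal_mul_I]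

theorem pow_log_bound (C : NNReal) (C₀ : ℝ) (hC₀ : 0 < C₀) (ψ : ℝ → ℝ)
    (hψ : Tendsto ψ atTop atTop) (j : ℕ) :
    ∀ᶠ N : ℕ in atTop, ∀ σ : ℝ, (N : ℝ) / 2 ≤ σ →
      ((j + 1 : ℕ) : ℝ) * (C * (C₀ * (1 + Real.log (1 / (1 / (N : ℝ) ^ (j + 2 + 1)))))) ≤
        ψ σ * Real.log σ := by
  set K : ℝ := 2 * (j + 4) * ((j + 1 : ℕ) * (C * C₀)) with hK
  have hK0 : 0 ≤ K := by positivity
  have h1 := (tendsto_atTop.1 hψ K)
  obtain ⟨σ₀, hσ₀⟩ := eventually_atTop.1 h1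
  obtain ⟨N₁, hN₁⟩ := exists_nat_ge (2 * σ₀)
  filter_upwards [eventually_ge_atTop (max N₁ 4)] with N hN σ hσ
  have hN4 : (4 : ℝ) ≤ N := by
    have : 4 ≤ N := le_trans (le_max_right _ _) hN
    exact_mod_cast this
  have hNN : (N₁ : ℝ) ≤ N := by
    have : N₁ ≤ N := le_trans (le_max_left _ _) hN
    exact_mod_cast this
  have h2 : K ≤ ψ σ := hσ₀ σ (by linarith)
  have hlogN : 1 ≤ Real.log N := by
    rw [Real.le_log_iff_exp_le (by linarith)]
    have := Real.exp_one_lt_d9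
    linarith
  have hlogσ : Real.log N ≤ 2 * Real.log σ := by
    have hσ2 : (2 : ℝ) ≤ σ := by linarith
    have h3 : (N : ℝ) ≤ σ ^ 2 := by nlinarith
    calc Real.log N ≤ Real.log (σ ^ 2) := Real.log_le_log (by linarith) h3
      _ = 2 * Real.log σ := by rw [Real.log_pow]; norm_num
  have h4 : Real.log (1 / (1 / (N : ℝ) ^ (j + 2 + 1))) = (j + 3) * Real.log N := by
    rw [one_div_one_div, Real.log_pow]
    push_cast
    ring
  rw [h4]
  have h5 : 1 + (j + 3) * Real.log N ≤ 2 * (j + 4) * Real.log σ := by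
    have hj : (0 : ℝ) ≤ j := Nat.cast_nonneg j
    nlinarith
  have hlogσ0 : 0 ≤ Real.log σ := by linarith
  calc ((j + 1 : ℕ) : ℝ) * (C * (C₀ * (1 + (j + 3) * Real.log N)))
      ≤ ((j + 1 : ℕ) : ℝ) * (C * (C₀ * (2 * (j + 4) * Real.log σ))) := by gcongr
    _ = K * Real.log σ := by rw [hK]; ring
    _ ≤ ψ σ * Real.log σ := mul_le_mul_of_nonneg_right h2 hlogσ0

theorem exists_Pj (hpull : S_pull) (hgrow : S_grow) {ψ : ℝ → ℝ} (hψ : Tendsto ψ atTop atTop)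
    {C₀ : ℝ} (hC₀ : 0 < C₀) {δf : ℝ → ℝ} (hδf : ∀ ε, 0 < δf ε) (j : ℕ) (a : ℕ → ℕ × ℝ)
    (ha : ∀ i < j, Pj ψ C₀ δf i a (a i)) : ∃ x, Pj ψ C₀ δf j a x := by
  have hval : ∀ i < j, 1 ≤ (a i).1 ∧ 0 < (a i).2 ∧ (a i).2 < 1 := by
    intro i hi
    have := (ha i hi).e1
    exact ⟨(ha i hi).N1, (ha i hi).e0, by linarith⟩
  have hB := Bl_Gs a j hval
  obtain ⟨r, hr0, hr1, C, hC⟩ := hpull (Gs a j) hB.an hB.inn hB.bd hB.deriv_ne
  -- a positive lower bound for the finitely many constants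
  obtain ⟨η, hη0, hη1, hη2⟩ : ∃ η : ℝ, 0 < η ∧ η ≤ (1 / 2) ^ (j + 1) ∧
      ∀ i < j, η ≤ (1 / 2) ^ (j + 1) * δf (a i).2 := by
    have h1 : ∀ᶠ η : ℝ in 𝓝[>] 0, η ≤ (1 / 2) ^ (j + 1) :=
      (tendsto_id.eventually_le_const (by positivity)).filter_mono nhdsWithin_le_nhds
    have h2 : ∀ᶠ η : ℝ in 𝓝[>] 0, ∀ i ∈ Finset.range j, η ≤ (1 / 2) ^ (j + 1) * δf (a i).2 := by
      rw [Filter.eventually_all_finset]
      intro i _
      have : 0 < (1 / 2 : ℝ) ^ (j + 1) * δf (a i).2 := by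
        have := hδf (a i).2
        positivity
      exact (tendsto_id.eventually_le_const this).filter_mono nhdsWithin_le_nhds
    have h0 : ∀ᶠ η : ℝ in 𝓝[>] 0, 0 < η := self_mem_nhdsWithin
    obtain ⟨η, h3, h4, h5⟩ := (h0.and (h1.and h2)).exists
    exact ⟨η, h3, h4, fun i hi => h5 i (Finset.mem_range.2 hi)⟩
  have hgr : ∀ᶠ N : ℕ in atTop, ∀ k ∈ Finset.range (j + 1), ∀ m ≤ j + 2, ∀ y : ℝ,
      ‖iteratedFDeriv ℝ m (fun y : ℝ => ell (1 / (N : ℝ) ^ (j + 2 + 1))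
        (bv (sh k a) (j - k) y ^ N)) y‖ ≤ η := by
    rw [Filter.eventually_all_finset]
    intro k hk
    have hk' : k ≤ j := by
      have := Finset.mem_range.1 hk
      omega
    obtain ⟨b1, b2, b3⟩ := bv_props (a := sh k a) (j := j - k)
      (fun i hi => hval (k + i) (by omega))
    obtain ⟨N₀, hN₀⟩ := hgrow _ b1 b2 b3 (j + 2) η hη0
    filter_upwards [eventually_ge_atTop N₀] with N hN
    exact hN₀ N hN
  have hr : ∀ᶠ N : ℕ in atTop, r ^ N ≤ (1 / (N : ℝ) ^ (j + 2 + 1)) / 2 := by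
    have h1 := tendsto_pow_const_mul_const_pow_of_abs_lt_one (j + 2 + 1)
      (r := r) (by rw [abs_of_pos hr0]; exact hr1)
    have h2 : ∀ᶠ N : ℕ in atTop, (N : ℝ) ^ (j + 2 + 1) * r ^ N ≤ 1 / 2 :=
      h1.eventually_le_const (by norm_num)
    filter_upwards [h2, eventually_ge_atTop 1] with N hN hN1
    have h3 : (0 : ℝ) < (N : ℝ) ^ (j + 2 + 1) := by
      have : (0 : ℝ) < N := by exact_mod_cast hN1
      positivity
    rw [div_div, le_div_iff₀ (by positivity)]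
    linarith
  obtain ⟨N, h1, h2, h3, h4⟩ := (hgr.and (hr.and ((pow_log_bound C C₀ hC₀ ψ hψ j).and
    (eventually_ge_atTop (max j 100))))).exists
  have hN100 : 100 ≤ N := le_trans (le_max_right _ _) h4
  have hNr : (100 : ℝ) ≤ N := by exact_mod_cast hN100
  have hε0 : 0 < 1 / (N : ℝ) ^ (j + 2 + 1) := by positivity
  refine ⟨(N, 1 / (N : ℝ) ^ (j + 2 + 1)), ?_, ?_, hε0, ?_, ?_, ?_, ?_⟩
  · show 1 ≤ N
    omega
  · exact le_trans (le_max_left _ _) h4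
  · show 1 / (N : ℝ) ^ (j + 2 + 1) ≤ 1 / 100
    refine one_div_le_one_div_of_le (by norm_num) ?_
    calc (100 : ℝ) ≤ N := hNr
      _ = (N : ℝ) ^ 1 := (pow_one _).symm
      _ ≤ (N : ℝ) ^ (j + 2 + 1) := pow_le_pow_right₀ (by linarith) (by omega)
  · intro Z hZ hm σ hσ
    have h5 := hC N (by omega) Z (fun w hw => h2.trans (hZ w hw))
    have h6 := h3 σ hσ
    calc ((j + 1 : ℕ) : ENNReal) * μH[1] {z : ℂ | z ∈ closedBall (0 : ℂ) 1 ∧ (Gs a j z) ^ N ∈ Z}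
        ≤ ((j + 1 : ℕ) : ENNReal) * (C * μH[1] (logSet Z)) := by gcongr
      _ ≤ ((j + 1 : ℕ) : ENNReal) * (C * ENNReal.ofReal (C₀ * (1 + Real.log
            (1 / (1 / (N : ℝ) ^ (j + 2 + 1)))))) := by gcongr
      _ = ENNReal.ofReal (((j + 1 : ℕ) : ℝ) * (C * (C₀ * (1 + Real.log
            (1 / (1 / (N : ℝ) ^ (j + 2 + 1))))))) := by
          rw [ENNReal.ofReal_mul (Nat.cast_nonneg _), ENNReal.ofReal_natCast,
            ENNReal.ofReal_mul (NNReal.coe_nonneg _), ENNReal.ofReal_coe_nnreal]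
      _ ≤ ENNReal.ofReal (ψ σ * Real.log σ) := ENNReal.ofReal_le_ofReal h6
  · intro k hk m hm y
    exact (h1 k (Finset.mem_range.2 (by omega)) m hm y).trans hη1
  · intro i hi k hk m hm y
    exact (h1 k (Finset.mem_range.2 (by omega)) m hm y).trans (hη2 i hi)

end Pool.Agent.W795.SK
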